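import Mathlib
import Pool.Agent.Helper543.Melchior

/-! Generalized circles (circles and lines) spanned by a finite planar set, and the two
consequences of Melchior's inequality obtained by inversion at a point of the set. -/

set_option autoImplicit false

namespace Pool.Agent.K1H39.Circles

open Finset
open Pool.Agent.Helper543.Melchior (Pt cr lineOf lines cr_self_left cr_self_right cr_swap
  exists_param cr_param mem_lineOf lineOf_eq lineOf_mem_lines eq_lineOf line_subset exists_two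
  melchior)

noncomputable section

open scoped Classical

/-- squared distance -/
def nq (p x : Pt) : ℝ := (x.1 - p.1) ^ 2 + (x.2 - p.2) ^ 2

/-- vanishes iff the four points are on a common circle or line -/
def D (p a b c : Pt) : ℝ :=
  nq p a * cr p b c - nq p b * cr p a c + nq p c * cr p a b

lemma nq_pos {p x : Pt} (h : x ≠ p) : 0 < nq p x := by
  unfold nq
  by_contra hcon
  have h1 : (x.1 - p.1) ^ 2 = 0 := by nlinarith [sq_nonneg (x.1 - p.1), sq_nonneg (x.2 - p.2)]
  have h2 : (x.2 - p.2) ^ 2 = 0 := by nlinarith [sq_nonneg (x.1 - p.1), sq_nonneg (x.2 - p.2)]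
  apply h
  ext
  · have := pow_eq_zero_iff (n := 2) (by norm_num) |>.1 h1; linarith
  · have := pow_eq_zero_iff (n := 2) (by norm_num) |>.1 h2; linarith

lemma D_swap12 (p a b c : Pt) : D a p b c = - D p a b c := by
  simp only [D, nq, cr]; ring

lemma D_swap23 (p a b c : Pt) : D p b a c = - D p a b c := by
  simp only [D, nq, cr]; ring

lemma D_swap34 (p a b c : Pt) : D p a c b = - D p a b c := by
  simp only [D, nq, cr]; ring

lemma D_self1 (a b c : Pt) : D a b c a = 0 := by simp only [D, nq, cr]; ring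
lemma D_self2 (a b c : Pt) : D a b c b = 0 := by simp only [D, nq, cr]; ring
lemma D_self3 (a b c : Pt) : D a b c c = 0 := by simp only [D, nq, cr]; ring

/-- inversion at `p` -/
def inv (p x : Pt) : Pt := ((x.1 - p.1) / nq p x, (x.2 - p.2) / nq p x)

lemma cr_inv {p x y z : Pt} (hx : x ≠ p) (hy : y ≠ p) (hz : z ≠ p) :
    cr (inv p x) (inv p y) (inv p z) * (nq p x * nq p y * nq p z) = D p x y z := by
  have h1 := (nq_pos hx).ne'
  have h2 := (nq_pos hy).ne'
  have h3 := (nq_pos hz).ne'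
  have e1 : (inv p x).1 = (x.1 - p.1) / nq p x := rfl
  have e2 : (inv p x).2 = (x.2 - p.2) / nq p x := rfl
  have e3 : (inv p y).1 = (y.1 - p.1) / nq p y := rfl
  have e4 : (inv p y).2 = (y.2 - p.2) / nq p y := rfl
  have e5 : (inv p z).1 = (z.1 - p.1) / nq p z := rfl
  have e6 : (inv p z).2 = (z.2 - p.2) / nq p z := rfl
  have hD : D p x y z = nq p x * ((y.1 - p.1) * (z.2 - p.2) - (y.2 - p.2) * (z.1 - p.1))
      - nq p y * ((x.1 - p.1) * (z.2 - p.2) - (x.2 - p.2) * (z.1 - p.1))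
      + nq p z * ((x.1 - p.1) * (y.2 - p.2) - (x.2 - p.2) * (y.1 - p.1)) := rfl
  rw [hD]
  simp only [cr, e1, e2, e3, e4, e5, e6]
  field_simp
  ring

lemma cr_inv_iff {p x y z : Pt} (hx : x ≠ p) (hy : y ≠ p) (hz : z ≠ p) :
    cr (inv p x) (inv p y) (inv p z) = 0 ↔ D p x y z = 0 := by
  rw [← cr_inv hx hy hz]
  have h1 := (nq_pos hx).ne'
  have h2 := (nq_pos hy).ne'
  have h3 := (nq_pos hz).ne'
  constructor
  · intro h; rw [h, zero_mul]
  · intro h
    rcases mul_eq_zero.mp h with h | h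
    · exact h
    · exact absurd h (mul_ne_zero (mul_ne_zero h1 h2) h3)

lemma cr_inv_zero {p x y : Pt} (hx : x ≠ p) (hy : y ≠ p) :
    cr (inv p x) (inv p y) 0 * (nq p x * nq p y) = cr p x y := by
  have h1 := (nq_pos hx).ne'
  have h2 := (nq_pos hy).ne'
  have e1 : (inv p x).1 = (x.1 - p.1) / nq p x := rfl
  have e2 : (inv p x).2 = (x.2 - p.2) / nq p x := rfl
  have e3 : (inv p y).1 = (y.1 - p.1) / nq p y := rfl
  have e4 : (inv p y).2 = (y.2 - p.2) / nq p y := rfl
  have hcr : cr p x y = (x.1 - p.1) * (y.2 - p.2) - (x.2 - p.2) * (y.1 - p.1) := rfl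
  rw [hcr]
  simp only [cr, e1, e2, e3, e4, Prod.fst_zero, Prod.snd_zero]
  field_simp
  ring

lemma cr_inv_zero_iff {p x y : Pt} (hx : x ≠ p) (hy : y ≠ p) :
    cr (inv p x) (inv p y) 0 = 0 ↔ cr p x y = 0 := by
  rw [← cr_inv_zero hx hy]
  have h1 := (nq_pos hx).ne'
  have h2 := (nq_pos hy).ne'
  constructor
  · intro h; rw [h, zero_mul]
  · intro h
    rcases mul_eq_zero.mp h with h | h
    · exact h
    · exact absurd h (mul_ne_zero h1 h2)

lemma inv_nq {p x : Pt} (hx : x ≠ p) : (inv p x).1 ^ 2 + (inv p x).2 ^ 2 = 1 / nq p x := by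
  have h1 := (nq_pos hx).ne'
  have e1 : (inv p x).1 = (x.1 - p.1) / nq p x := rfl
  have e2 : (inv p x).2 = (x.2 - p.2) / nq p x := rfl
  rw [e1, e2, div_pow, div_pow, ← add_div, div_eq_div_iff (by positivity) h1]
  have : (x.1 - p.1) ^ 2 + (x.2 - p.2) ^ 2 = nq p x := rfl
  rw [this]; ring

lemma inv_inj {p x y : Pt} (hx : x ≠ p) (hy : y ≠ p) (h : inv p x = inv p y) : x = y := by
  have h1 := (nq_pos hx).ne'
  have h2 := (nq_pos hy).ne'
  have h3 : 1 / nq p x = 1 / nq p y := by rw [← inv_nq hx, ← inv_nq hy, h]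
  have h4 : nq p x = nq p y := by
    rw [one_div, one_div] at h3
    exact _root_.inv_inj.mp h3
  have e1 : (x.1 - p.1) / nq p x = (y.1 - p.1) / nq p y := congrArg Prod.fst h
  have e2 : (x.2 - p.2) / nq p x = (y.2 - p.2) / nq p y := congrArg Prod.snd h
  rw [h4] at e1 e2
  rw [div_left_inj' h2] at e1 e2
  ext <;> linarith

lemma inv_ne_zero {p x : Pt} (hx : x ≠ p) : inv p x ≠ 0 := by
  intro h
  have h1 := inv_nq hx
  have h2 := (nq_pos hx)
  rw [h] at h1
  have : (0 : ℝ) < 1 / nq p x := by positivity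
  rw [← h1] at this
  simp at this

/-- basic exchange -/
lemma D_exch {a b c x t : Pt} (hab : a ≠ b) (hac : a ≠ c) (hbc : b ≠ c)
    (hx : D a b c x = 0) (ht : D a b c t = 0) : D a b x t = 0 := by
  by_cases hxa : x = a
  · subst hxa; simp only [D, nq, cr]; ring
  by_cases hta : t = a
  · subst hta; simp only [D, nq, cr]; ring
  have h1 := (cr_inv_iff hab.symm hac.symm hxa).mpr hx
  have h2 := (cr_inv_iff hab.symm hac.symm hta).mpr ht
  rw [← cr_inv_iff hab.symm hxa hta]
  have hbc' : inv a b ≠ inv a c := fun h => hbc (inv_inj hab.symm hac.symm h)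
  obtain ⟨s, hs1, hs2⟩ := exists_param hbc' h1
  have h0 : (inv a b).1 - (inv a b).1 = 0 * ((inv a c).1 - (inv a b).1) := by ring
  have h0' : (inv a b).2 - (inv a b).2 = 0 * ((inv a c).2 - (inv a b).2) := by ring
  rw [cr_param h0 h0' hs1 hs2, h2, mul_zero]

/-- points of `P` on the generalized circle through `a b c` -/
def gc (P : Finset Pt) (a b c : Pt) : Finset Pt := P.filter (fun x => D a b c x = 0)

lemma mem_gc {P : Finset Pt} {a b c x : Pt} : x ∈ gc P a b c ↔ x ∈ P ∧ D a b c x = 0 := by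
  simp [gc]

lemma gc_swap12 (P : Finset Pt) (a b c : Pt) : gc P b a c = gc P a b c := by
  ext x; rw [mem_gc, mem_gc, D_swap12, neg_eq_zero]

lemma gc_swap23 (P : Finset Pt) (a b c : Pt) : gc P a c b = gc P a b c := by
  ext x; rw [mem_gc, mem_gc, D_swap23, neg_eq_zero]

lemma gc_swap13 (P : Finset Pt) (a b c : Pt) : gc P c b a = gc P a b c := by
  rw [gc_swap12 P b c a, gc_swap23 P b a c, gc_swap12]

lemma gc_repl3 {P : Finset Pt} {a b c x : Pt} (hab : a ≠ b) (hac : a ≠ c) (hbc : b ≠ c)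
    (hx : D a b c x = 0) (hxa : x ≠ a) (hxb : x ≠ b) : gc P a b x = gc P a b c := by
  ext t
  rw [mem_gc, mem_gc]
  constructor
  · rintro ⟨ht, h⟩
    refine ⟨ht, ?_⟩
    have hc : D a b x c = 0 := by rw [D_swap34, hx, neg_zero]
    exact D_exch hab hxa.symm hxb.symm hc h
  · rintro ⟨ht, h⟩
    exact ⟨ht, D_exch hab hac hbc hx h⟩

/-- three distinct points of a generalized circle determine it -/
lemma gc_eq {P : Finset Pt} {a b c x y z : Pt} (hab : a ≠ b) (hac : a ≠ c) (hbc : b ≠ c)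
    (hx : D a b c x = 0) (hy : D a b c y = 0) (hz : D a b c z = 0) (hxy : x ≠ y) (hxz : x ≠ z)
    (hyz : y ≠ z) : gc P x y z = gc P a b c := by
  -- first treat the case `x ∉ {a, b}`
  have key : ∀ x y z : Pt, D a b c x = 0 → D a b c y = 0 → D a b c z = 0 → x ≠ y → x ≠ z → y ≠ z →
      x ≠ a → x ≠ b → gc P x y z = gc P a b c := by
    intro x y z hx hy hz hxy hxz hyz hxa hxb
    have h1 : gc P a b x = gc P a b c := gc_repl3 hab hac hbc hx hxa hxb
    have hy1 : D a b x y = 0 := D_exch hab hac hbc hx hy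
    have hz1 : D a b x z = 0 := D_exch hab hac hbc hx hz
    by_cases hya : y = a
    · subst hya
      -- replace b by z in (y, x, b)
      have h2 : gc P y x b = gc P y b x := gc_swap23 P y b x
      have hz2 : D y x b z = 0 := by rw [D_swap23, hz1, neg_zero]
      have h3 : gc P y x z = gc P y x b := gc_repl3 hxy.symm hab hxb hz2 hyz.symm hxz.symm
      rw [gc_swap12 P y x z, h3, h2, h1]
    · -- replace b by y in (a, x, b)
      have h2 : gc P a x b = gc P a b x := gc_swap23 P a b x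
      have hy2 : D a x b y = 0 := by rw [D_swap23, hy1, neg_zero]
      have h3 : gc P a x y = gc P a x b := gc_repl3 hxa.symm hab hxb hy2 hya hxy.symm
      have hz2 : D a x b z = 0 := by rw [D_swap23, hz1, neg_zero]
      have hz3 : D a x y z = 0 := D_exch hxa.symm hab hxb hy2 hz2
      -- replace a by z in (x, y, a)
      have h4 : gc P x y a = gc P a x y := by
        rw [gc_swap23 P x a y, gc_swap12 P a x y]
      have hz4 : D x y a z = 0 := by
        have e1 : D x y a z = - D x a y z := D_swap23 x a y z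
        have e2 : D x a y z = - D a x y z := D_swap12 a x y z
        rw [e1, e2, hz3]; ring
      have h5 : gc P x y z = gc P x y a :=
        gc_repl3 hxy hxa hya hz4 hxz.symm hyz.symm
      rw [h5, h4, h3, h2, h1]
  by_cases h1 : x ≠ a ∧ x ≠ b
  · exact key x y z hx hy hz hxy hxz hyz h1.1 h1.2
  by_cases h2 : y ≠ a ∧ y ≠ b
  · rw [← gc_swap12 P x y z]
    exact key y x z hy hx hz hxy.symm hyz hxz h2.1 h2.2
  -- then `z ∉ {a, b}`
  have h3 : z ≠ a ∧ z ≠ b := by
    by_contra hcon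
    have h1' : x = a ∨ x = b := by tauto
    have h2' : y = a ∨ y = b := by tauto
    have h3' : z = a ∨ z = b := by tauto
    rcases h1' with rfl | rfl <;> rcases h2' with rfl | rfl <;> rcases h3' with rfl | rfl <;>
      first | exact hxy rfl | exact hxz rfl | exact hyz rfl
  rw [← gc_swap13 P x y z]
  exact key z y x hz hy hx hyz.symm hxz.symm hxy.symm h3.1 h3.2

/-- the generalized circles (as subsets of `P`) spanned by `P` -/
def blocks (P : Finset Pt) : Finset (Finset Pt) :=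
  ((P ×ˢ P ×ˢ P).filter (fun t => t.1 ≠ t.2.1 ∧ t.1 ≠ t.2.2 ∧ t.2.1 ≠ t.2.2)).image
    (fun t => gc P t.1 t.2.1 t.2.2)

lemma mem_blocks {P B : Finset Pt} : B ∈ blocks P ↔
    ∃ a ∈ P, ∃ b ∈ P, ∃ c ∈ P, a ≠ b ∧ a ≠ c ∧ b ≠ c ∧ B = gc P a b c := by
  simp only [blocks, mem_image, mem_filter, mem_product]
  constructor
  · rintro ⟨⟨a, b, c⟩, ⟨⟨ha, hb, hc⟩, h1, h2, h3⟩, rfl⟩
    exact ⟨a, ha, b, hb, c, hc, h1, h2, h3, rfl⟩
  · rintro ⟨a, ha, b, hb, c, hc, h1, h2, h3, rfl⟩
    exact ⟨(a, b, c), ⟨⟨ha, hb, hc⟩, h1, h2, h3⟩, rfl⟩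

lemma block_subset {P B : Finset Pt} (hB : B ∈ blocks P) : B ⊆ P := by
  obtain ⟨a, _, b, _, c, _, _, _, _, rfl⟩ := mem_blocks.mp hB
  exact filter_subset _ _

lemma block_eq {P B : Finset Pt} (hB : B ∈ blocks P) {x y z : Pt} (hx : x ∈ B) (hy : y ∈ B)
    (hz : z ∈ B) (hxy : x ≠ y) (hxz : x ≠ z) (hyz : y ≠ z) : B = gc P x y z := by
  obtain ⟨a, _, b, _, c, _, hab, hac, hbc, rfl⟩ := mem_blocks.mp hB
  exact (gc_eq hab hac hbc (mem_gc.mp hx).2 (mem_gc.mp hy).2 (mem_gc.mp hz).2 hxy hxz hyz).symm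

lemma gc_mem_blocks {P : Finset Pt} {a b c : Pt} (ha : a ∈ P) (hb : b ∈ P) (hc : c ∈ P)
    (hab : a ≠ b) (hac : a ≠ c) (hbc : b ≠ c) : gc P a b c ∈ blocks P :=
  mem_blocks.mpr ⟨a, ha, b, hb, c, hc, hab, hac, hbc, rfl⟩

lemma mem_gc1 {P : Finset Pt} {a b c : Pt} (ha : a ∈ P) : a ∈ gc P a b c :=
  mem_gc.mpr ⟨ha, D_self1 _ _ _⟩
lemma mem_gc2 {P : Finset Pt} {a b c : Pt} (hb : b ∈ P) : b ∈ gc P a b c :=
  mem_gc.mpr ⟨hb, D_self2 _ _ _⟩
lemma mem_gc3 {P : Finset Pt} {a b c : Pt} (hc : c ∈ P) : c ∈ gc P a b c :=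
  mem_gc.mpr ⟨hc, D_self3 _ _ _⟩

lemma three_le_card {P B : Finset Pt} (hB : B ∈ blocks P) : 3 ≤ B.card := by
  obtain ⟨a, ha, b, hb, c, hc, hab, hac, hbc, rfl⟩ := mem_blocks.mp hB
  have : ({a, b, c} : Finset Pt) ⊆ gc P a b c := by
    intro x hx
    simp only [mem_insert, mem_singleton] at hx
    rcases hx with rfl | rfl | rfl
    · exact mem_gc1 ha
    · exact mem_gc2 hb
    · exact mem_gc3 hc
  have h := card_le_card this
  rwa [card_eq_three.mpr ⟨a, b, c, hab, hac, hbc, rfl⟩] at h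

/-- two different blocks have at most two common points -/
lemma inter_le {P B B' : Finset Pt} (hB : B ∈ blocks P) (hB' : B' ∈ blocks P) (hne : B ≠ B') :
    (B ∩ B').card ≤ 2 := by
  by_contra hcon
  push Not at hcon
  obtain ⟨x, y, z, hx, hy, hz, hxy, hxz, hyz⟩ := two_lt_card_iff.mp hcon
  rw [mem_inter] at hx hy hz
  exact hne ((block_eq hB hx.1 hy.1 hz.1 hxy hxz hyz).trans
    (block_eq hB' hx.2 hy.2 hz.2 hxy hxz hyz).symm)

/-- collinear triples -/
lemma D_of_collinear {x y z t : Pt} (hxy : x ≠ y) (hxz : x ≠ z) (hyz : y ≠ z)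
    (h : cr x y z = 0) : D x y z t = 0 ↔ cr x y t = 0 := by
  obtain ⟨s, hs1, hs2⟩ := exists_param hxy h
  have hs0 : s ≠ 0 := by
    rintro rfl
    apply hxz
    ext <;> linarith
  have hs1' : 1 - s ≠ 0 := by
    intro h0
    have : s = 1 := by linarith
    subst this
    apply hyz
    ext <;> linarith
  have hn := (nq_pos hxy.symm).ne'
  have key : D x y z t = (nq x y * s * (1 - s)) * cr x y t := by
    simp only [D, nq, cr]
    rw [hs1, hs2]
    ring
  rw [key, mul_eq_zero]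
  constructor
  · rintro (h | h)
    · exact absurd h (mul_ne_zero (mul_ne_zero hn hs0) hs1')
    · exact h
  · intro h; exact Or.inr h

lemma gc_of_collinear {P : Finset Pt} {x y z : Pt} (hxy : x ≠ y) (hxz : x ≠ z) (hyz : y ≠ z)
    (h : cr x y z = 0) : gc P x y z = lineOf P x y := by
  ext t
  rw [mem_gc, mem_lineOf, D_of_collinear hxy hxz hyz h]

lemma line_mem_blocks {P L : Finset Pt} (hL : L ∈ lines P) (h3 : 3 ≤ L.card) : L ∈ blocks P := by
  obtain ⟨x, y, z, hx, hy, hz, hxy, hxz, hyz⟩ := two_lt_card_iff.mp h3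
  have h1 := eq_lineOf hL hx hy hxy
  have hz' := hz
  rw [h1, mem_lineOf] at hz'
  rw [h1, ← gc_of_collinear hxy hxz hyz hz'.2]
  exact gc_mem_blocks (line_subset hL hx) (line_subset hL hy) (line_subset hL hz) hxy hxz hyz

/-- the circles (as subsets of `P`) spanned by `P` -/
def circ (P : Finset Pt) : Finset (Finset Pt) := (blocks P).filter (fun B => B ∉ lines P)

lemma mem_circ {P B : Finset Pt} : B ∈ circ P ↔ B ∈ blocks P ∧ B ∉ lines P := by
  simp [circ]

lemma two_le_card_line {P L : Finset Pt} (hL : L ∈ lines P) : 2 ≤ L.card := by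
  obtain ⟨a, ha, b, hb, hab⟩ := exists_two hL
  exact one_lt_card.mpr ⟨a, ha, b, hb, hab⟩

end

end Pool.Agent.K1H39.Circles
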