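import Mathlib

/-! Integer certificates. -/

set_option autoImplicit false

namespace Pool.Agent.K1H39.Circles

open Finset

/-- the extremal number -/
def Tn (n : ℕ) : ℕ := (n - 1).choose 2 + 1 - (n - 1) / 2

/-- integer certificate check -/
def chkP (n K : ℕ) (d a b c e : ℤ) : Prop :=
  ∀ x ∈ range 3, ∀ y ∈ range (n - K + 1), 3 ≤ x + y → x + y ≤ K →
      a * (x.choose 2 : ℕ) * y + b * ((x + y).choose 3 : ℕ)
        + (4 - ((x : ℤ) + y)) * (c * x + e * y) ≤ d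

instance (n K : ℕ) (d a b c e : ℤ) : Decidable (chkP n K d a b c e) := by
  unfold chkP
  infer_instance

def chkA (n K : ℕ) (d a b c e : ℤ) : Bool := decide (chkP n K d a b c e)

def chkB (n K : ℕ) (d a b c e : ℤ) : Bool :=
  decide (9 * d * ((Tn n : ℤ) - 1) < 9 * (d - (b * (K.choose 3 : ℕ) + (4 - (K : ℤ)) * (c * K))
      + a * (K.choose 2 : ℕ) * ((n : ℤ) - K) + b * (n.choose 3 : ℕ))
      + 3 * ((9 * c - d) * K + (9 * e - d) * ((n : ℤ) - K)) + 3 * d * n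
      - 2 * d * (n.choose 2 : ℕ))

def chk (n K : ℕ) (d a b c e : ℤ) : Bool :=
  decide (0 < d) && decide (d ≤ 9 * c) && decide (d ≤ 9 * e) && chkA n K d a b c e
    && chkB n K d a b c e

lemma of_chk {n K : ℕ} {d a b c e : ℤ} (h : chk n K d a b c e = true) :
    (0 < d ∧ d ≤ 9 * c ∧ d ≤ 9 * e ∧
    (∀ x ∈ range 3, ∀ y ∈ range (n - K + 1), 3 ≤ x + y → x + y ≤ K →
      a * (x.choose 2 : ℕ) * y + b * ((x + y).choose 3 : ℕ)
        + (4 - ((x : ℤ) + y)) * (c * x + e * y) ≤ d) ∧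
    9 * d * ((Tn n : ℤ) - 1) < 9 * (d - (b * (K.choose 3 : ℕ) + (4 - (K : ℤ)) * (c * K))
      + a * (K.choose 2 : ℕ) * ((n : ℤ) - K) + b * (n.choose 3 : ℕ))
      + 3 * ((9 * c - d) * K + (9 * e - d) * ((n : ℤ) - K)) + 3 * d * n
      - 2 * d * (n.choose 2 : ℕ)) := by
  unfold chk at h
  simp only [Bool.and_eq_true] at h
  obtain ⟨⟨⟨⟨h1, h2⟩, h3⟩, h4⟩, h5⟩ := h
  exact ⟨of_decide_eq_true h1, of_decide_eq_true h2, of_decide_eq_true h3, of_decide_eq_true h4,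
    of_decide_eq_true h5⟩

def chk1 (n K : ℕ) : Bool :=
  chk n K (9 * (K * (K + 2))) 0 (18 * ((K : ℤ) - 1)) (3 * ((K : ℤ) ^ 2 + 2)) (3 * ((K : ℤ) ^ 2 + 2))

def chk2 (n K : ℕ) : Bool :=
  chk n K (36 * (K + 6)) (18 * ((K : ℤ) - 2)) 72 (3 * ((K : ℤ) + 22)) (12 * ((K : ℤ) + 4))

def chk3 (n K : ℕ) : Bool := chk n K 18 15 (-3) 2 2

lemma chk_small : ∀ n ∈ Icc 15 24, ∀ K ∈ Icc 3 (n - 2),
    (chk1 n K || chk2 n K || chk3 n K) = true := by
  decide +kernel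

end Pool.Agent.K1H39.Circles
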