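import Pool.Agent.K1H39.Circles.Transfer

/-! The extremal example: `n - 1` points of a circle, as many antipodal pairs as possible, and the
centre. -/

set_option autoImplicit false

namespace Pool.Agent.K1H39.Circles

open Finset
open Pool.Agent.Helper543.Melchior (Pt cr lineOf lines cr_self_left cr_self_right cr_swap
  exists_param cr_param mem_lineOf lineOf_eq lineOf_mem_lines eq_lineOf line_subset exists_two
  melchior)

noncomputable section

open scoped Classical

/-- rational points of the upper half circle -/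
def pp (t : ℕ) : Pt := ((1 - ((t : ℝ) + 1) ^ 2) / (1 + ((t : ℝ) + 1) ^ 2),
  2 * ((t : ℝ) + 1) / (1 + ((t : ℝ) + 1) ^ 2))

lemma pp_pos (t : ℕ) : 0 < (pp t).2 := by
  unfold pp
  positivity

lemma pp_inj : Function.Injective pp := by
  intro s t h
  have h1 : (1 - ((s : ℝ) + 1) ^ 2) / (1 + ((s : ℝ) + 1) ^ 2)
    = (1 - ((t : ℝ) + 1) ^ 2) / (1 + ((t : ℝ) + 1) ^ 2) := congrArg Prod.fst h
  rw [div_eq_div_iff (by positivity) (by positivity)] at h1
  have h2 : ((s : ℝ) + 1) ^ 2 = ((t : ℝ) + 1) ^ 2 := by linarith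
  have h3 := (pow_left_inj₀ (by positivity) (by positivity) (by norm_num)).mp h2
  have h4 : (s : ℝ) = t := by linarith
  exact_mod_cast h4

lemma nq_pp (t : ℕ) : nq 0 (pp t) = 1 := by
  unfold nq pp
  simp only [Prod.fst_zero, Prod.snd_zero, sub_zero]
  field_simp
  ring

lemma nq_neg_pp (t : ℕ) : nq 0 (-pp t) = 1 := by
  rw [← nq_pp t]
  unfold nq
  simp

/-- the points on the circle -/
def Ga (n : ℕ) : Finset Pt :=
  (range (n / 2)).image pp ∪ (range ((n - 1) / 2)).image (fun t => -pp t)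

def Qn (n : ℕ) : Finset Pt := insert 0 (Ga n)

lemma card_Ga {n : ℕ} (hn : 1 ≤ n) : (Ga n).card = n - 1 := by
  unfold Ga
  have hninj : Function.Injective (fun t => -pp t) := by
    intro s t h
    exact pp_inj (neg_injective h)
  rw [card_union_of_disjoint, card_image_of_injective _ pp_inj,
    card_image_of_injective _ hninj, card_range, card_range]
  · omega
  · rw [disjoint_left]
    intro x hx hx'
    obtain ⟨s, _, rfl⟩ := mem_image.mp hx
    obtain ⟨t, _, ht⟩ := mem_image.mp hx'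
    have h1 := pp_pos s
    have h2 := pp_pos t
    rw [← ht] at h1
    simp only [Prod.snd_neg] at h1
    linarith

lemma nq_Ga {n : ℕ} {x : Pt} (hx : x ∈ Ga n) : nq 0 x = 1 := by
  unfold Ga at hx
  rw [mem_union, mem_image, mem_image] at hx
  rcases hx with ⟨t, _, rfl⟩ | ⟨t, _, rfl⟩
  · exact nq_pp t
  · exact nq_neg_pp t

lemma zero_notMem_Ga (n : ℕ) : (0 : Pt) ∉ Ga n := by
  intro h
  have h1 := nq_Ga h
  simp [nq] at h1

lemma card_Qn {n : ℕ} (hn : 1 ≤ n) : (Qn n).card = n := by
  unfold Qn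
  rw [card_insert_of_notMem (zero_notMem_Ga n), card_Ga hn]
  omega

lemma filter_Qn (n : ℕ) : (Qn n).filter (fun x => nq 0 x = 1) = Ga n := by
  ext x
  rw [mem_filter, Qn, mem_insert]
  constructor
  · rintro ⟨rfl | h, h'⟩
    · simp [nq] at h'
    · exact h
  · intro h
    exact ⟨Or.inr h, nq_Ga h⟩

/-- antipodal pairs -/
def An (n : ℕ) : Finset (Finset Pt) := (range ((n - 1) / 2)).image (fun t => {pp t, -pp t})

lemma pp_mem {n t : ℕ} (ht : t < (n - 1) / 2) : pp t ∈ Ga n := by
  unfold Ga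
  rw [mem_union]
  left
  exact mem_image_of_mem _ (mem_range.mpr (by omega))

lemma neg_pp_mem {n t : ℕ} (ht : t < (n - 1) / 2) : -pp t ∈ Ga n := by
  unfold Ga
  rw [mem_union]
  right
  exact mem_image.mpr ⟨t, mem_range.mpr ht, rfl⟩

lemma pp_ne_neg (s t : ℕ) : pp s ≠ -pp t := by
  intro h
  have h1 := pp_pos s
  have h2 := pp_pos t
  rw [h] at h1
  simp only [Prod.snd_neg] at h1
  linarith

lemma card_An (n : ℕ) : (An n).card = (n - 1) / 2 := by
  unfold An
  rw [card_image_of_injective, card_range]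
  intro s t h
  have h1 : pp s ∈ ({pp s, -pp s} : Finset Pt) := by simp
  have h2 : pp s ∈ ({pp t, -pp t} : Finset Pt) := by
    have h' : ({pp s, -pp s} : Finset Pt) = {pp t, -pp t} := h
    rw [← h']; exact h1
  rw [mem_insert, mem_singleton] at h2
  rcases h2 with h2 | h2
  · exact pp_inj h2
  · exact absurd h2 (pp_ne_neg s t)

lemma An_subset (n : ℕ) : An n ⊆ (Ga n).powersetCard 2 := by
  intro A hA
  obtain ⟨t, ht, rfl⟩ := mem_image.mp hA
  rw [mem_range] at ht
  rw [mem_powersetCard]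
  refine ⟨?_, card_pair (pp_ne_neg t t)⟩
  intro x hx
  simp only [mem_insert, mem_singleton] at hx
  rcases hx with rfl | rfl
  · exact pp_mem ht
  · exact neg_pp_mem ht

lemma Ga_mem {n : ℕ} (hn : 4 ≤ n) : Ga n ∈ circ (Qn n) := by
  have h : 3 ≤ ((Qn n).filter (fun x => nq 0 x = 1)).card := by
    rw [filter_Qn, card_Ga (by omega)]; omega
  have := circ_of_circle h
  rwa [filter_Qn] at this

lemma other {n : ℕ} (hn : 4 ≤ n) {B : Finset Pt} (hB : B ∈ circ (Qn n)) (hne : B ≠ Ga n) :
    0 ∈ B ∧ B ∩ Ga n ∈ (Ga n).powersetCard 2 \ An n := by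
  have hBb := (mem_circ.mp hB).1
  have h1 := inter_le hBb (mem_circ.mp (Ga_mem hn)).1 hne
  have h3 := three_le_card hBb
  have h0 : (0 : Pt) ∈ B := by
    by_contra h0
    have : B ⊆ B ∩ Ga n := by
      intro x hx
      rw [mem_inter]
      refine ⟨hx, ?_⟩
      have := block_subset hBb hx
      rw [Qn, mem_insert] at this
      rcases this with rfl | h
      · exact absurd hx h0
      · exact h
    have := card_le_card this
    omega
  have h4 : B ⊆ insert 0 (B ∩ Ga n) := by
    intro x hx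
    have := block_subset hBb hx
    rw [Qn, mem_insert] at this
    rw [mem_insert, mem_inter]
    rcases this with rfl | h
    · left; rfl
    · right; exact ⟨hx, h⟩
  have h5 := (card_le_card h4).trans (card_insert_le _ _)
  refine ⟨h0, ?_⟩
  rw [mem_sdiff, mem_powersetCard]
  refine ⟨⟨inter_subset_right, by omega⟩, ?_⟩
  intro hA
  obtain ⟨t, ht, hA⟩ := mem_image.mp hA
  have e1 : pp t ∈ B := by
    have : pp t ∈ B ∩ Ga n := by rw [← hA]; simp
    exact (mem_inter.mp this).1
  have e2 : -pp t ∈ B := by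
    have : -pp t ∈ B ∩ Ga n := by rw [← hA]; simp
    exact (mem_inter.mp this).1
  have e3 : (0 : Pt) ≠ pp t := by
    intro h
    have h1 := pp_pos t
    rw [← h] at h1
    simp at h1
  have e4 : (0 : Pt) ≠ -pp t := by
    intro h
    apply e3
    rw [eq_comm, neg_eq_zero] at h
    exact h.symm
  apply noncol_of_circ hB h0 e1 e2 e3 e4 (pp_ne_neg t t)
  simp only [cr, Prod.fst_zero, Prod.snd_zero, Prod.fst_neg, Prod.snd_neg]
  ring

lemma circ_upper {n : ℕ} (hn : 4 ≤ n) : (circ (Qn n)).card ≤ Tn n := by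
  have h1 : ((circ (Qn n)).erase (Ga n)).card ≤ ((Ga n).powersetCard 2 \ An n).card := by
    apply card_le_card_of_injOn (fun B => B ∩ Ga n)
    · intro B hB
      have hB' := mem_erase.mp (mem_coe.mp hB)
      exact mem_coe.mpr (other hn hB'.2 hB'.1).2
    · intro B hB B' hB' h
      have hB1 := mem_erase.mp (mem_coe.mp hB)
      have hB1' := mem_erase.mp (mem_coe.mp hB')
      have o1 := other hn hB1.2 hB1.1
      have o2 := other hn hB1'.2 hB1'.1
      have h2 := mem_powersetCard.mp (mem_sdiff.mp o1.2).1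
      obtain ⟨x, y, hxy, hS⟩ := card_eq_two.mp h2.2
      have hx : x ∈ B ∩ Ga n := by rw [hS]; simp
      have hy : y ∈ B ∩ Ga n := by rw [hS]; simp
      have h' : B ∩ Ga n = B' ∩ Ga n := h
      have hx' := hx
      have hy' := hy
      rw [h'] at hx' hy'
      rw [mem_inter] at hx hy hx' hy'
      have hx0 : (0 : Pt) ≠ x := fun h => zero_notMem_Ga n (h ▸ hx.2)
      have hy0 : (0 : Pt) ≠ y := fun h => zero_notMem_Ga n (h ▸ hy.2)
      rw [block_eq (mem_circ.mp hB1.2).1 o1.1 hx.1 hy.1 hx0 hy0 hxy,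
        block_eq (mem_circ.mp hB1'.2).1 o2.1 hx'.1 hy'.1 hx0 hy0 hxy]
  rw [card_erase_of_mem (Ga_mem hn), card_sdiff_of_subset (An_subset n), card_powersetCard,
    card_Ga (by omega), card_An] at h1
  have h2 : (An n).card ≤ ((Ga n).powersetCard 2).card := card_le_card (An_subset n)
  rw [card_An, card_powersetCard, card_Ga (by omega)] at h2
  unfold Tn
  have h3 : 0 < (circ (Qn n)).card := card_pos.mpr ⟨_, Ga_mem hn⟩
  omega

lemma cr_of_collinear {P : Set Pl} (h : Collinear ℝ P) {a b c : Pl} (ha : a ∈ P) (hb : b ∈ P)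
    (hc : c ∈ P) : cr (toPt a) (toPt b) (toPt c) = 0 := by
  rw [collinear_iff_of_mem ha] at h
  obtain ⟨v, hv⟩ := h
  obtain ⟨r, rfl⟩ := hv b hb
  obtain ⟨s, rfl⟩ := hv c hc
  simp only [cr, toPt, vadd_eq_add, PiLp.add_apply, PiLp.smul_apply, smul_eq_mul]
  ring

/-- the extremal set -/
def Pn (n : ℕ) : Finset Pl := (Qn n).image ofPt

lemma ofPt_inj : Function.Injective ofPt := by
  intro x y h
  rw [← toPt_ofPt x, ← toPt_ofPt y, h]

lemma image_Pn (n : ℕ) : (Pn n).image toPt = Qn n := by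
  unfold Pn
  rw [image_image]
  have : toPt ∘ ofPt = id := by
    funext x; exact toPt_ofPt x
  rw [this, image_id]

lemma card_Pn {n : ℕ} (hn : 1 ≤ n) : (Pn n).card = n := by
  unfold Pn
  rw [card_image_of_injective _ ofPt_inj, card_Qn hn]

lemma Pn_admissible {n : ℕ} (hn : 7 ≤ n) : Admissible (Pn n) := by
  have hm : ∀ x ∈ Qn n, ofPt x ∈ (Pn n : Set Pl) := by
    intro x hx
    rw [mem_coe]
    exact mem_image_of_mem _ hx
  have h0 : (0 : Pt) ∈ Qn n := by unfold Qn; exact mem_insert_self _ _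
  have hp : ∀ t, t < (n - 1) / 2 → pp t ∈ Qn n := by
    intro t ht
    unfold Qn; exact mem_insert_of_mem (pp_mem ht)
  have hp' : ∀ t, t < (n - 1) / 2 → -pp t ∈ Qn n := by
    intro t ht
    unfold Qn; exact mem_insert_of_mem (neg_pp_mem ht)
  constructor
  · intro h
    have h1 := cr_of_collinear h (hm _ (hp 0 (by omega))) (hm _ (hp 1 (by omega)))
      (hm _ (hp 2 (by omega)))
    rw [toPt_ofPt, toPt_ofPt, toPt_ofPt] at h1
    refine not_col (fun h => ?_) (fun h => ?_) (fun h => ?_) (nq_pp 0) (nq_pp 1) (nq_pp 2) h1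
    · exact absurd (pp_inj h) (by norm_num)
    · exact absurd (pp_inj h) (by norm_num)
    · exact absurd (pp_inj h) (by norm_num)
  · rintro ⟨o, r, h⟩
    have h1 := h _ (hm _ h0)
    have h2 := h _ (hm _ (hp 0 (by omega)))
    have h3 := h _ (hm _ (hp' 0 (by omega)))
    have g1 : nq (toPt o) 0 = r ^ 2 := by rw [← h1, dist_sq, toPt_ofPt]
    have g2 : nq (toPt o) (pp 0) = r ^ 2 := by rw [← h2, dist_sq, toPt_ofPt]
    have g3 : nq (toPt o) (-pp 0) = r ^ 2 := by rw [← h3, dist_sq, toPt_ofPt]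
    have e3 : (0 : Pt) ≠ pp 0 := by
      intro h
      have h1 := pp_pos 0
      rw [← h] at h1
      simp at h1
    have e4 : (0 : Pt) ≠ -pp 0 := by
      intro h
      apply e3
      rw [eq_comm, neg_eq_zero] at h
      exact h.symm
    apply not_col e3 e4 (pp_ne_neg 0 0) g1 g2 g3
    simp only [cr, Prod.fst_zero, Prod.snd_zero, Prod.fst_neg, Prod.snd_neg]
    ring

lemma numCircles_Pn_le {n : ℕ} (hn : 4 ≤ n) : numCircles (Pn n) ≤ Tn n := by
  rw [numCircles_eq, image_Pn]
  exact circ_upper hn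

theorem isLeast_circles (n : ℕ) (hn : 15 ≤ n) :
    IsLeast {c | ∃ P : Finset Pl, P.card = n ∧ Admissible P ∧ numCircles P = c} (Tn n) := by
  constructor
  · refine ⟨Pn n, card_Pn (by omega), Pn_admissible (by omega), ?_⟩
    apply le_antisymm (numCircles_Pn_le (by omega))
    have := lower_bound (P := Pn n) (by rw [card_Pn (by omega)]; exact hn)
      (Pn_admissible (by omega))
    rwa [card_Pn (by omega)] at this
  · rintro c ⟨P, hP, hA, rfl⟩
    have := lower_bound (P := P) (by omega) hA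
    rwa [hP] at this

end

end Pool.Agent.K1H39.Circles
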