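import Pool.Agent.K1H39.Circles.Mel

/-! Double counting: the weighted certificate inequality. -/

set_option autoImplicit false

namespace Pool.Agent.K1H39.Circles

open Finset
open Pool.Agent.Helper543.Melchior (Pt cr lineOf lines cr_self_left cr_self_right cr_swap
  exists_param cr_param mem_lineOf lineOf_eq lineOf_mem_lines eq_lineOf line_subset exists_two
  melchior)

noncomputable section

open scoped Classical

lemma sum_choose3 (P : Finset Pt) : ∑ B ∈ blocks P, B.card.choose 3 = P.card.choose 3 := by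
  rw [← card_powersetCard 3 P]
  have h : P.powersetCard 3 = (blocks P).biUnion (fun B => B.powersetCard 3) := by
    ext t
    rw [mem_biUnion, mem_powersetCard]
    constructor
    · rintro ⟨htP, ht⟩
      obtain ⟨x, y, z, hxy, hxz, hyz, rfl⟩ := card_eq_three.mp ht
      have hx : x ∈ P := htP (by simp)
      have hy : y ∈ P := htP (by simp)
      have hz : z ∈ P := htP (by simp)
      refine ⟨gc P x y z, gc_mem_blocks hx hy hz hxy hxz hyz, ?_⟩
      rw [mem_powersetCard]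
      refine ⟨?_, ht⟩
      intro u hu
      simp only [mem_insert, mem_singleton] at hu
      rcases hu with rfl | rfl | rfl
      · exact mem_gc1 hx
      · exact mem_gc2 hy
      · exact mem_gc3 hz
    · rintro ⟨B, hB, ht⟩
      rw [mem_powersetCard] at ht
      exact ⟨ht.1.trans (block_subset hB), ht.2⟩
  rw [h, card_biUnion]
  · exact sum_congr rfl fun B _ => (card_powersetCard 3 B).symm
  · intro B hB B' hB' hne
    simp only [Function.onFun]
    rw [disjoint_left]
    intro t ht ht'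
    rw [mem_powersetCard] at ht ht'
    have h1 : t ⊆ B ∩ B' := subset_inter ht.1 ht'.1
    have h2 := card_le_card h1
    have h3 := inter_le hB hB' hne
    omega

lemma sum_choose2 (P : Finset Pt) : ∑ L ∈ lines P, L.card.choose 2 = P.card.choose 2 := by
  rw [← card_powersetCard 2 P]
  have h : P.powersetCard 2 = (lines P).biUnion (fun B => B.powersetCard 2) := by
    ext t
    rw [mem_biUnion, mem_powersetCard]
    constructor
    · rintro ⟨htP, ht⟩
      obtain ⟨x, y, hxy, rfl⟩ := card_eq_two.mp ht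
      have hx : x ∈ P := htP (by simp)
      have hy : y ∈ P := htP (by simp)
      refine ⟨lineOf P x y, lineOf_mem_lines hx hy hxy, ?_⟩
      rw [mem_powersetCard]
      refine ⟨?_, ht⟩
      intro u hu
      simp only [mem_insert, mem_singleton] at hu
      rcases hu with rfl | rfl
      · exact mem_lineOf.mpr ⟨hx, cr_self_left _ _⟩
      · exact mem_lineOf.mpr ⟨hy, cr_self_right _ _⟩
    · rintro ⟨B, hB, ht⟩
      rw [mem_powersetCard] at ht
      exact ⟨ht.1.trans (line_subset hB), ht.2⟩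
  rw [h, card_biUnion]
  · exact sum_congr rfl fun B _ => (card_powersetCard 2 B).symm
  · intro B hB B' hB' hne
    simp only [Function.onFun]
    rw [disjoint_left]
    intro t ht ht'
    rw [mem_powersetCard] at ht ht'
    obtain ⟨x, y, hxy, rfl⟩ := card_eq_two.mp ht.2
    apply hne
    rw [eq_lineOf hB (ht.1 (by simp : x ∈ ({x, y} : Finset Pt)))
      (ht.1 (by simp : y ∈ ({x, y} : Finset Pt))) hxy,
      eq_lineOf hB' (ht'.1 (by simp : x ∈ ({x, y} : Finset Pt)))
      (ht'.1 (by simp : y ∈ ({x, y} : Finset Pt))) hxy]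

lemma sum_choose21 {P Γ : Finset Pt} (hΓ : Γ ∈ blocks P) :
    ∑ B ∈ blocks P, (B ∩ Γ).card.choose 2 * (B \ Γ).card
      = Γ.card.choose 2 * (P.card - Γ.card) := by
  have hPΓ : (P \ Γ).card = P.card - Γ.card := card_sdiff_of_subset (block_subset hΓ)
  rw [← card_powersetCard 2 Γ, ← hPΓ, ← card_product]
  have h : Γ.powersetCard 2 ×ˢ (P \ Γ)
      = (blocks P).biUnion (fun B => (B ∩ Γ).powersetCard 2 ×ˢ (B \ Γ)) := by
    ext ⟨t, z⟩
    rw [mem_biUnion, mem_product]
    simp only [mem_powersetCard, mem_sdiff]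
    constructor
    · rintro ⟨⟨htP, ht⟩, hz, hzΓ⟩
      obtain ⟨x, y, hxy, rfl⟩ := card_eq_two.mp ht
      have hxΓ : x ∈ Γ := htP (by simp)
      have hyΓ : y ∈ Γ := htP (by simp)
      have hx : x ∈ P := block_subset hΓ hxΓ
      have hy : y ∈ P := block_subset hΓ hyΓ
      have hxz : x ≠ z := by rintro rfl; exact hzΓ hxΓ
      have hyz : y ≠ z := by rintro rfl; exact hzΓ hyΓ
      refine ⟨gc P x y z, gc_mem_blocks hx hy hz hxy hxz hyz, ?_⟩
      rw [mem_product, mem_powersetCard, mem_sdiff]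
      refine ⟨⟨?_, ht⟩, mem_gc3 hz, hzΓ⟩
      intro u hu
      simp only [mem_insert, mem_singleton] at hu
      rw [mem_inter]
      rcases hu with rfl | rfl
      · exact ⟨mem_gc1 hx, hxΓ⟩
      · exact ⟨mem_gc2 hy, hyΓ⟩
    · rintro ⟨B, hB, ht⟩
      rw [mem_product, mem_powersetCard, mem_sdiff] at ht
      exact ⟨⟨ht.1.1.trans inter_subset_right, ht.1.2⟩, block_subset hB ht.2.1, ht.2.2⟩
  rw [h, card_biUnion]
  · refine sum_congr rfl fun B _ => ?_
    rw [card_product, card_powersetCard]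
  · intro B hB B' hB' hne
    simp only [Function.onFun]
    rw [disjoint_left]
    rintro ⟨t, z⟩ ht ht'
    rw [mem_product, mem_powersetCard, mem_sdiff] at ht ht'
    have h1 : insert z t ⊆ B ∩ B' := by
      intro u hu
      rw [mem_insert] at hu
      rcases hu with rfl | hu
      · exact mem_inter.mpr ⟨ht.2.1, ht'.2.1⟩
      · exact mem_inter.mpr ⟨(mem_inter.mp (ht.1.1 hu)).1, (mem_inter.mp (ht'.1.1 hu)).1⟩
    have h2 := card_le_card h1
    have hz : z ∉ t := fun hz => ht.2.2 (mem_inter.mp (ht.1.1 hz)).2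
    rw [card_insert_of_notMem hz] at h2
    have h3 := inter_le hB hB' hne
    have h4 : t.card = 2 := ht.1.2
    omega

/-- double counting of incidences -/
lemma dc {P : Finset Pt} {S : Finset (Finset Pt)} (hS : ∀ B ∈ S, B ⊆ P) (w : Pt → ℝ)
    (f : Finset Pt → ℝ) :
    ∑ p ∈ P, w p * ∑ B ∈ S.filter (fun B => p ∈ B), f B = ∑ B ∈ S, f B * ∑ p ∈ B, w p := by
  have h1 : ∀ p ∈ P, w p * ∑ B ∈ S.filter (fun B => p ∈ B), f B
      = ∑ B ∈ S, if p ∈ B then w p * f B else 0 := by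
    intro p _
    rw [sum_filter, mul_sum]
    refine sum_congr rfl fun B _ => ?_
    split_ifs <;> simp
  rw [sum_congr rfl h1, sum_comm]
  refine sum_congr rfl fun B hB => ?_
  rw [← sum_filter, mul_sum]
  have h2 : P.filter (fun p => p ∈ B) = B := by
    ext p
    rw [mem_filter]
    exact ⟨fun h => h.2, fun h => ⟨hS B hB h, h⟩⟩
  rw [h2]
  exact sum_congr rfl fun p _ => mul_comm _ _

/-- lines with at least three points -/
def lines3 (P : Finset Pt) : Finset (Finset Pt) := (lines P).filter (fun L => 3 ≤ L.card)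

lemma blocks_split (P : Finset Pt) (f : Finset Pt → ℝ) :
    ∑ B ∈ blocks P, f B = ∑ B ∈ circ P, f B + ∑ B ∈ lines3 P, f B := by
  have h1 : (blocks P).filter (fun B => ¬ (B ∉ lines P)) = lines3 P := by
    ext B
    rw [mem_filter, lines3, mem_filter]
    constructor
    · rintro ⟨h, h'⟩
      exact ⟨not_not.mp h', three_le_card h⟩
    · rintro ⟨h, h'⟩
      exact ⟨line_mem_blocks h h', not_not.mpr h⟩
  rw [← sum_filter_add_sum_filter_not (blocks P) (fun B => B ∉ lines P) f, h1]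
  rfl

/-- the certificate inequality -/
theorem main_bound {P Γ : Finset Pt} (h4 : 4 ≤ P.card) (hP : P ∉ blocks P) (hΓ : Γ ∈ blocks P)
    (hmax : ∀ B ∈ blocks P, B.card ≤ Γ.card) (a b c e : ℝ) (hc : 1 / 9 ≤ c) (he : 1 / 9 ≤ e)
    (hΦ : ∀ x y : ℕ, x ≤ 2 → 3 ≤ x + y → x + y ≤ Γ.card → y ≤ P.card - Γ.card →
      a * ((x.choose 2 : ℕ) : ℝ) * y + b * (((x + y).choose 3 : ℕ) : ℝ)
        + (4 - ((x : ℝ) + y)) * (c * x + e * y) ≤ 1) :
    1 - (b * ((Γ.card.choose 3 : ℕ) : ℝ) + (4 - (Γ.card : ℝ)) * (c * Γ.card))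
      + a * ((Γ.card.choose 2 : ℕ) : ℝ) * ((P.card : ℝ) - Γ.card)
      + b * ((P.card.choose 3 : ℕ) : ℝ)
      + 3 * ((c - 1 / 9) * Γ.card + (e - 1 / 9) * ((P.card : ℝ) - Γ.card)) + P.card / 3
      - 2 / 9 * ((P.card.choose 2 : ℕ) : ℝ) ≤ ((circ P).card : ℝ) := by
  have hΓP := block_subset hΓ
  have hKn := card_le_card hΓP
  set w : Pt → ℝ := fun p => if p ∈ Γ then c else e with hw
  -- weight of a block
  have hW : ∀ B : Finset Pt, ∑ p ∈ B, w p = c * (B ∩ Γ).card + e * (B \ Γ).card := by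
    intro B
    rw [← sum_filter_add_sum_filter_not B (fun p => p ∈ Γ) w]
    have e1 : B.filter (fun p => p ∈ Γ) = B ∩ Γ := by
      ext p; simp
    have e2 : B.filter (fun p => ¬ p ∈ Γ) = B \ Γ := by
      ext p; simp
    rw [e1, e2]
    have e3 : ∑ p ∈ B ∩ Γ, w p = ∑ p ∈ B ∩ Γ, c :=
      sum_congr rfl fun p hp => if_pos (mem_inter.mp hp).2
    have e4 : ∑ p ∈ B \ Γ, w p = ∑ p ∈ B \ Γ, e :=
      sum_congr rfl fun p hp => if_neg (mem_sdiff.mp hp).2
    rw [e3, e4, sum_const, sum_const, nsmul_eq_mul, nsmul_eq_mul]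
    ring
  have hcard : ∀ B : Finset Pt, ((B ∩ Γ).card : ℝ) + (B \ Γ).card = B.card := by
    intro B
    have := card_inter_add_card_sdiff B Γ
    exact_mod_cast this
  -- weighted Melchior 1
  have hm1 : ∑ p ∈ P, (w p - 1 / 9) * 3
      ≤ ∑ B ∈ blocks P, (4 - (B.card : ℝ)) * ∑ p ∈ B, (w p - 1 / 9) := by
    rw [← dc (fun B hB => block_subset hB) (fun p => w p - 1 / 9) (fun B => 4 - (B.card : ℝ))]
    refine sum_le_sum fun p hp => ?_
    have h1 := mel2 h4 hP hp
    have h2 : (3 : ℝ) ≤ ∑ B ∈ (blocks P).filter (fun B => p ∈ B), (4 - (B.card : ℝ)) := by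
      have h3 : ((3 : ℤ) : ℝ)
          ≤ ((∑ B ∈ (blocks P).filter (fun B => p ∈ B), (4 - (B.card : ℤ)) : ℤ) : ℝ) := by
        exact_mod_cast h1
      push_cast at h3
      exact h3
    have h5 : 0 ≤ w p - 1 / 9 := by
      simp only [hw]
      split_ifs <;> linarith
    exact mul_le_mul_of_nonneg_left h2 h5
  -- weighted Melchior 2
  have hm2 : (P.card : ℝ) / 3 ≤ 1 / 9 * (∑ B ∈ circ P, (4 - (B.card : ℝ)) * B.card
      + ∑ L ∈ lines P, (3 - (L.card : ℝ)) * L.card) := by
    have h1 := dc (P := P) (S := circ P) (fun B hB => block_subset (mem_circ.mp hB).1)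
      (fun _ => 1) (fun B => 4 - (B.card : ℝ))
    have h2 := dc (P := P) (S := lines P) (fun B hB => line_subset hB)
      (fun _ => 1) (fun L => 3 - (L.card : ℝ))
    simp only [one_mul, sum_const, nsmul_eq_mul, mul_one] at h1 h2
    rw [← h1, ← h2, ← sum_add_distrib]
    have h3 : ∑ p ∈ P, (3 : ℝ) ≤ ∑ p ∈ P, (∑ B ∈ (circ P).filter (fun B => p ∈ B),
        (4 - (B.card : ℝ)) + ∑ L ∈ (lines P).filter (fun L => p ∈ L), (3 - (L.card : ℝ))) := by
      refine sum_le_sum fun p hp => ?_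
      have h4' := mel3 h4 hP hp
      have h5 : ((3 : ℤ) : ℝ) ≤ ((∑ B ∈ (circ P).filter (fun B => p ∈ B), (4 - (B.card : ℤ))
          + ∑ L ∈ (lines P).filter (fun L => p ∈ L), (3 - (L.card : ℤ)) : ℤ) : ℝ) := by
        exact_mod_cast h4'
      push_cast at h5
      exact h5
    rw [sum_const, nsmul_eq_mul] at h3
    linarith
  -- counting lines
  have hl : ∑ L ∈ lines P, (3 - (L.card : ℝ)) * L.card
      = ∑ L ∈ lines3 P, ((4 - (L.card : ℝ)) * L.card - (L.card : ℝ) ^ 2)
        + 2 * ((P.card.choose 2 : ℕ) : ℝ) := by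
    rw [← sum_choose2 P, Nat.cast_sum, mul_sum, lines3, sum_filter, ← sum_add_distrib]
    refine sum_congr rfl fun L hL => ?_
    have h2 := two_le_card_line hL
    rw [Nat.cast_choose_two]
    split_ifs with h3
    · ring
    · have h4' : L.card = 2 := by omega
      rw [h4']
      norm_num
  -- total
  set Φ : Finset Pt → ℝ := fun B => a * (((B ∩ Γ).card.choose 2 : ℕ) : ℝ) * (B \ Γ).card
    + b * ((B.card.choose 3 : ℕ) : ℝ) + (4 - (B.card : ℝ)) * ∑ p ∈ B, w p with hΦdef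
  have htot : ∑ B ∈ blocks P, Φ B
      = a * ((Γ.card.choose 2 : ℕ) : ℝ) * ((P.card : ℝ) - Γ.card)
        + b * ((P.card.choose 3 : ℕ) : ℝ)
        + ∑ B ∈ blocks P, (4 - (B.card : ℝ)) * ∑ p ∈ B, w p := by
    simp only [hΦdef]
    rw [sum_add_distrib, sum_add_distrib, ← mul_sum]
    have e1 := sum_choose21 hΓ
    have e2 := sum_choose3 P
    have e1' : ∑ B ∈ blocks P, (((B ∩ Γ).card.choose 2 : ℕ) : ℝ) * (B \ Γ).card
        = ((Γ.card.choose 2 : ℕ) : ℝ) * ((P.card : ℝ) - Γ.card) := by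
      rw [← Nat.cast_sub hKn, ← Nat.cast_mul, ← e1]
      push_cast
      rfl
    have e2' : ∑ B ∈ blocks P, ((B.card.choose 3 : ℕ) : ℝ) = ((P.card.choose 3 : ℕ) : ℝ) := by
      rw [← e2]
      push_cast
      rfl
    rw [e2']
    have e3 : ∑ B ∈ blocks P, a * (((B ∩ Γ).card.choose 2 : ℕ) : ℝ) * (B \ Γ).card
        = a * ((Γ.card.choose 2 : ℕ) : ℝ) * ((P.card : ℝ) - Γ.card) := by
      rw [mul_assoc, ← e1', mul_sum]
      exact sum_congr rfl fun B _ => by ring
    rw [e3]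
  have hsub : ∑ B ∈ blocks P, (4 - (B.card : ℝ)) * ∑ p ∈ B, (w p - 1 / 9)
      = ∑ B ∈ blocks P, (4 - (B.card : ℝ)) * ∑ p ∈ B, w p
        - 1 / 9 * ∑ B ∈ blocks P, (4 - (B.card : ℝ)) * B.card := by
    rw [mul_sum, ← sum_sub_distrib]
    refine sum_congr rfl fun B _ => ?_
    rw [sum_sub_distrib, sum_const, nsmul_eq_mul]
    ring
  have hbs := blocks_split P (fun B => (4 - (B.card : ℝ)) * B.card)
  have hwP : ∑ p ∈ P, (w p - 1 / 9) * 3
      = 3 * ((c - 1 / 9) * Γ.card + (e - 1 / 9) * ((P.card : ℝ) - Γ.card)) := by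
    rw [← sum_mul, sum_sub_distrib, sum_const, nsmul_eq_mul, hW P]
    have e1 : P ∩ Γ = Γ := inter_eq_right.mpr hΓP
    have e2 := hcard P
    rw [e1] at e2 ⊢
    have e3 : ((P \ Γ).card : ℝ) = (P.card : ℝ) - Γ.card := by linarith
    rw [e3]
    ring
  -- upper bound
  have hΦΓ : Φ Γ = b * ((Γ.card.choose 3 : ℕ) : ℝ) + (4 - (Γ.card : ℝ)) * (c * Γ.card) := by
    simp only [hΦdef]
    rw [hW Γ]
    simp
  have hup : ∑ B ∈ blocks P, Φ B ≤ Φ Γ + ((blocks P).card - 1) := by
    rw [← add_sum_erase _ _ hΓ]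
    have h1 : ∑ B ∈ (blocks P).erase Γ, Φ B ≤ ∑ B ∈ (blocks P).erase Γ, 1 := by
      refine sum_le_sum fun B hB => ?_
      rw [mem_erase] at hB
      simp only [hΦdef]
      rw [hW B]
      have h2 : (B ∩ Γ).card ≤ 2 := inter_le hB.2 hΓ hB.1
      have h3 : (B ∩ Γ).card + (B \ Γ).card = B.card := card_inter_add_card_sdiff B Γ
      have h5 : (B \ Γ).card ≤ P.card - Γ.card := by
        rw [← card_sdiff_of_subset hΓP]
        exact card_le_card (sdiff_subset_sdiff (block_subset hB.2) (Subset.refl _))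
      have h6 := hΦ _ _ h2 (h3 ▸ three_le_card hB.2) (h3 ▸ hmax B hB.2) h5
      rw [h3, hcard B] at h6
      exact h6
    rw [sum_const, nsmul_eq_mul, mul_one, card_erase_of_mem hΓ] at h1
    have h2 : 1 ≤ (blocks P).card := card_pos.mpr ⟨Γ, hΓ⟩
    rw [Nat.cast_sub h2, Nat.cast_one] at h1
    linarith
  have hbc : ((blocks P).card : ℝ) = (circ P).card + (lines3 P).card := by
    have := blocks_split P (fun _ => 1)
    simpa using this
  have hl3 : ((lines3 P).card : ℝ) ≤ 1 / 9 * ∑ L ∈ lines3 P, (L.card : ℝ) ^ 2 := by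
    have h1 : ∑ L ∈ lines3 P, (9 : ℝ) ≤ ∑ L ∈ lines3 P, (L.card : ℝ) ^ 2 := by
      refine sum_le_sum fun L hL => ?_
      have h2 : 3 ≤ L.card := (mem_filter.mp hL).2
      have h3 : (3 : ℝ) ≤ L.card := by exact_mod_cast h2
      nlinarith
    rw [sum_const, nsmul_eq_mul] at h1
    linarith
  rw [sum_sub_distrib] at hl
  rw [hwP, hsub, hbs] at hm1
  rw [htot] at hup
  rw [hΦΓ] at hup
  linarith

end

end Pool.Agent.K1H39.Circles
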