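import Pool.Agent.K1H39.Circles.Count
import Pool.Agent.K1H39.Circles.Chk

/-! The lower bound for the number of circles, for at least `15` points. -/

set_option autoImplicit false

namespace Pool.Agent.K1H39.Circles

open Finset
open Pool.Agent.Helper543.Melchior (Pt cr lineOf lines cr_self_left cr_self_right cr_swap
  exists_param cr_param mem_lineOf lineOf_eq lineOf_mem_lines eq_lineOf line_subset exists_two
  melchior)

noncomputable section

open scoped Classical

lemma chk_sound {P Γ : Finset Pt} (h4 : 4 ≤ P.card) (hP : P ∉ blocks P) (hΓ : Γ ∈ blocks P)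
    (hmax : ∀ B ∈ blocks P, B.card ≤ Γ.card) (d a b c e : ℤ)
    (h : chk P.card Γ.card d a b c e = true) : Tn P.card ≤ (circ P).card := by
  obtain ⟨hd, hc, he, hΦ, hnum⟩ := of_chk h
  have hd' : (0 : ℝ) < d := by exact_mod_cast hd
  have hmb := main_bound h4 hP hΓ hmax ((a : ℝ) / d) ((b : ℝ) / d) ((c : ℝ) / d) ((e : ℝ) / d)
    (by
      rw [div_le_div_iff₀ (by norm_num) hd']
      have : (d : ℝ) ≤ 9 * c := by exact_mod_cast hc
      linarith)
    (by
      rw [div_le_div_iff₀ (by norm_num) hd']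
      have : (d : ℝ) ≤ 9 * e := by exact_mod_cast he
      linarith)
    (by
      intro x y hx h3 hK hy
      have h1 := hΦ x (mem_range.mpr (by omega)) y (mem_range.mpr (by omega)) h3 hK
      have h2 : (a : ℝ) * ((x.choose 2 : ℕ) : ℝ) * y + b * (((x + y).choose 3 : ℕ) : ℝ)
        + (4 - ((x : ℝ) + y)) * (c * x + e * y) ≤ d := by exact_mod_cast h1
      have h3' : (a : ℝ) / d * ((x.choose 2 : ℕ) : ℝ) * y + b / d * (((x + y).choose 3 : ℕ) : ℝ)
        + (4 - ((x : ℝ) + y)) * (c / d * x + e / d * y)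
        = ((a : ℝ) * ((x.choose 2 : ℕ) : ℝ) * y + b * (((x + y).choose 3 : ℕ) : ℝ)
        + (4 - ((x : ℝ) + y)) * (c * x + e * y)) / d := by
        field_simp
      rw [h3', div_le_one hd']
      exact h2)
  have hnum' : 9 * (d : ℝ) * ((Tn P.card : ℝ) - 1)
      < 9 * (d - (b * ((Γ.card.choose 3 : ℕ) : ℝ) + (4 - (Γ.card : ℝ)) * (c * Γ.card))
      + a * ((Γ.card.choose 2 : ℕ) : ℝ) * ((P.card : ℝ) - Γ.card)
      + b * ((P.card.choose 3 : ℕ) : ℝ))
      + 3 * ((9 * c - d) * Γ.card + (9 * e - d) * ((P.card : ℝ) - Γ.card)) + 3 * d * P.card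
      - 2 * d * ((P.card.choose 2 : ℕ) : ℝ) := by exact_mod_cast hnum
  have hmb' : 9 * (d : ℝ) * (1 - ((b : ℝ) / d * ((Γ.card.choose 3 : ℕ) : ℝ)
      + (4 - (Γ.card : ℝ)) * ((c : ℝ) / d * Γ.card))
      + (a : ℝ) / d * ((Γ.card.choose 2 : ℕ) : ℝ) * ((P.card : ℝ) - Γ.card)
      + (b : ℝ) / d * ((P.card.choose 3 : ℕ) : ℝ)
      + 3 * (((c : ℝ) / d - 1 / 9) * Γ.card + ((e : ℝ) / d - 1 / 9) * ((P.card : ℝ) - Γ.card))
      + P.card / 3 - 2 / 9 * ((P.card.choose 2 : ℕ) : ℝ))
      = 9 * (d - (b * ((Γ.card.choose 3 : ℕ) : ℝ) + (4 - (Γ.card : ℝ)) * (c * Γ.card))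
      + a * ((Γ.card.choose 2 : ℕ) : ℝ) * ((P.card : ℝ) - Γ.card)
      + b * ((P.card.choose 3 : ℕ) : ℝ))
      + 3 * ((9 * c - d) * Γ.card + (9 * e - d) * ((P.card : ℝ) - Γ.card)) + 3 * d * P.card
      - 2 * d * ((P.card.choose 2 : ℕ) : ℝ) := by
    field_simp
    ring
  have h5 : 9 * (d : ℝ) * ((Tn P.card : ℝ) - 1) < 9 * (d : ℝ) * ((circ P).card : ℝ) := by
    refine lt_of_lt_of_le (hmb' ▸ hnum') ?_
    exact mul_le_mul_of_nonneg_left hmb (by positivity)
  have h6 : (Tn P.card : ℝ) - 1 < ((circ P).card : ℝ) := lt_of_mul_lt_mul_left h5 (by positivity)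
  have h7 : (Tn P.card : ℝ) < ((circ P).card : ℝ) + 1 := by linarith
  have h8 : Tn P.card < (circ P).card + 1 := by exact_mod_cast h7
  omega

lemma cast_choose3 (k : ℕ) : ((k.choose 3 : ℕ) : ℝ) = k * (k - 1) * (k - 2) / 6 := by
  induction k with
  | zero => simp
  | succ k ih =>
    rw [Nat.choose_succ_succ, Nat.cast_add, ih, Nat.cast_choose_two]
    push_cast
    ring

lemma Tn_le (n : ℕ) (hn : 2 ≤ n) : (Tn n : ℝ) ≤ ((n : ℝ) - 2) ^ 2 / 2 + 1 := by
  obtain ⟨m, rfl⟩ : ∃ m, n = m + 2 := ⟨n - 2, by omega⟩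
  unfold Tn
  have h1 : m + 2 - 1 = m + 1 := by omega
  rw [h1]
  have h2 : ((m + 1).choose 2 + 1 - (m + 1) / 2 : ℕ) ≤ (m + 1).choose 2 + 1 - (m + 1) / 2 := le_rfl
  have h3 : (m + 1) / 2 ≤ (m + 1).choose 2 + 1 := by
    have : m ≤ (m + 1).choose 2 := by
      rw [Nat.choose_two_right]
      have : 2 * m ≤ (m + 1) * (m + 1 - 1) ∨ m = 0 := by
        rcases Nat.eq_zero_or_pos m with h | h
        · right; exact h
        · left; simp; nlinarith
      rcases this with h | h
      · omega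
      · subst h; simp
    omega
  rw [Nat.cast_sub h3]
  push_cast
  rw [Nat.cast_choose_two]
  have h4 : (m : ℝ) / 2 ≤ (((m + 1) / 2 : ℕ) : ℝ) := by
    rw [div_le_iff₀ (by norm_num)]
    have : m ≤ (m + 1) / 2 * 2 := by omega
    exact_mod_cast this
  push_cast
  have h5 : (((m + 1) / 2 : ℕ) : ℝ) = (((m + 1) / 2 : ℕ) : ℝ) := rfl
  nlinarith

lemma circ_of_lt {m c : ℕ} {t : ℝ} (h1 : (m : ℝ) ≤ t + 1) (h2 : t < c) : m ≤ c := by
  have h3 : (m : ℝ) < (c : ℝ) + 1 := by linarith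
  have h4 : m < c + 1 := by exact_mod_cast h3
  omega

/-- small blocks -/
lemma lower1 {P Γ : Finset Pt} (hn : 25 ≤ P.card) (hP : P ∉ blocks P) (hΓ : Γ ∈ blocks P)
    (hmax : ∀ B ∈ blocks P, B.card ≤ Γ.card) (hK : 2 * Γ.card + 3 ≤ P.card) :
    Tn P.card ≤ (circ P).card := by
  have h3 := three_le_card hΓ
  have hK3 : (3 : ℝ) ≤ Γ.card := by exact_mod_cast h3
  have hn' : (25 : ℝ) ≤ P.card := by exact_mod_cast hn
  have hK' : 2 * (Γ.card : ℝ) + 3 ≤ P.card := by exact_mod_cast hK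
  set α : ℝ := 2 * ((Γ.card : ℝ) - 1) / (Γ.card * (Γ.card + 2)) with hα
  have hKpos : (0 : ℝ) < (Γ.card : ℝ) * (Γ.card + 2) := by positivity
  have hα23 : α ≤ 2 / 3 := by
    rw [hα, div_le_div_iff₀ hKpos (by norm_num)]
    nlinarith
  have hαK : α * ((Γ.card : ℝ) * (Γ.card + 2)) = 2 * ((Γ.card : ℝ) - 1) := by
    rw [hα]; field_simp
  have hmb := main_bound (by omega) hP hΓ hmax 0 α ((1 - α) / 3) ((1 - α) / 3) (by linarith)
    (by linarith) (by
      intro x y _ hxy hxyK _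
      have hk : (3 : ℝ) ≤ (x : ℝ) + y := by exact_mod_cast hxy
      have hkK : (x : ℝ) + y ≤ Γ.card := by exact_mod_cast hxyK
      rw [cast_choose3]
      push_cast
      set k : ℝ := (x : ℝ) + y with hkdef
      set K : ℝ := (Γ.card : ℝ) with hKdef
      have e1 : 0 * (((x.choose 2 : ℕ) : ℝ)) * (y : ℝ) + α * (k * (k - 1) * (k - 2) / 6)
          + (4 - k) * ((1 - α) / 3 * x + (1 - α) / 3 * y)
          = 1 - (k - 3) * (K - k) * ((K - 1) * k - (K + 2)) / (3 * (K * (K + 2))) := by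
        have e2 : (1 - α) / 3 * (x : ℝ) + (1 - α) / 3 * y = (1 - α) / 3 * k := by
          rw [hkdef]; ring
        rw [e2, hα]
        field_simp
        ring
      rw [e1]
      have e3 : 0 ≤ (k - 3) * (K - k) * ((K - 1) * k - (K + 2)) / (3 * (K * (K + 2))) := by
        apply div_nonneg _ (by positivity)
        apply mul_nonneg (mul_nonneg (by linarith) (by linarith))
        nlinarith
      linarith)
  rw [cast_choose3, cast_choose3, Nat.cast_choose_two, Nat.cast_choose_two] at hmb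
  refine circ_of_lt (Tn_le _ (by omega)) (lt_of_lt_of_le ?_ hmb)
  set K : ℝ := (Γ.card : ℝ) with hKdef
  set n : ℝ := (P.card : ℝ) with hndef
  have key : 1 - (α * (K * (K - 1) * (K - 2) / 6) + (4 - K) * ((1 - α) / 3 * K))
      + 0 * (K * (K - 1) / 2) * (n - K) + α * (n * (n - 1) * (n - 2) / 6)
      + 3 * (((1 - α) / 3 - 1 / 9) * K + ((1 - α) / 3 - 1 / 9) * (n - K)) + n / 3
      - 2 / 9 * (n * (n - 1) / 2) = α * (n * (n - 4) * (n + 1) / 6) - n * (n - 10) / 9 := by
    have e1 : α * (K * (K - 1) * (K - 2) / 6) + (4 - K) * ((1 - α) / 3 * K) = 1 := by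
      have : α * (K * (K - 1) * (K - 2) / 6) + (4 - K) * ((1 - α) / 3 * K)
        = (K - 3) / 6 * (α * (K * (K + 2))) + (4 - K) * K / 3 := by ring
      rw [this, hαK]
      ring
    rw [e1]
    ring
  rw [key]
  have hβ : 4 * (n - 5) / ((n - 3) * (n + 1)) ≤ α := by
    rw [hα, div_le_div_iff₀ (by nlinarith) hKpos]
    obtain ⟨j, hj⟩ : ∃ j : ℝ, n = 2 * K + 3 + j := ⟨n - (2 * K + 3), by ring⟩
    have hj0 : 0 ≤ j := by linarith
    rw [hj]
    have : 0 ≤ j * (4 * K ^ 2 - 8 * K - 8 + 2 * (K - 1) * j) := by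
      apply mul_nonneg hj0
      nlinarith
    nlinarith
  have hpos : 0 < n * (n - 4) * (n + 1) / 6 := by
    have : 0 < n * (n - 4) * (n + 1) := by
      apply mul_pos (mul_pos _ _) <;> linarith
    positivity
  have h5 : 4 * (n - 5) / ((n - 3) * (n + 1)) * (n * (n - 4) * (n + 1) / 6)
      ≤ α * (n * (n - 4) * (n + 1) / 6) := mul_le_mul_of_nonneg_right hβ hpos.le
  refine lt_of_lt_of_le ?_ (sub_le_sub_right h5 _)
  have h6 : 4 * (n - 5) / ((n - 3) * (n + 1)) * (n * (n - 4) * (n + 1) / 6)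
      - n * (n - 10) / 9 - (n - 2) ^ 2 / 2 = (n ^ 3 - 19 * n ^ 2 + 36 * n + 108) / (18 * (n - 3)) := by
    have e1 : n - 3 ≠ 0 := by linarith
    have e2 : n + 1 ≠ 0 := by linarith
    field_simp
    ring
  have h7 : 0 < (n ^ 3 - 19 * n ^ 2 + 36 * n + 108) / (18 * (n - 3)) := by
    apply div_pos
    · nlinarith [sq_nonneg n, mul_nonneg (sq_nonneg n) (by linarith : (0 : ℝ) ≤ n - 25)]
    · linarith
  linarith

/-- large blocks -/
lemma lower3 {P Γ : Finset Pt} (hn : 25 ≤ P.card) (hP : P ∉ blocks P) (hΓ : Γ ∈ blocks P)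
    (hmax : ∀ B ∈ blocks P, B.card ≤ Γ.card) (hK : P.card ≤ 2 * Γ.card + 2)
    (hK2 : Γ.card + 2 ≤ P.card) : Tn P.card ≤ (circ P).card := by
  have hmb := main_bound (by omega) hP hΓ hmax (5 / 6) (- 1 / 6) (1 / 9) (1 / 9) (by norm_num)
    (by norm_num) (by
      intro x y hx hxy hxyK _
      rw [cast_choose3, Nat.cast_choose_two]
      push_cast
      have hy0 : (0 : ℝ) ≤ y := Nat.cast_nonneg y
      interval_cases x
      · have : (3 : ℝ) ≤ y := by
          have : 3 ≤ y := by omega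
          exact_mod_cast this
        push_cast
        have h1 : 0 ≤ (y : ℝ) * (y - 1) * (y - 2) :=
          mul_nonneg (mul_nonneg hy0 (by linarith)) (by linarith)
        nlinarith
      · have : (2 : ℝ) ≤ y := by
          have : 2 ≤ y := by omega
          exact_mod_cast this
        push_cast
        have h1 : 0 ≤ ((y : ℝ) + 1) * y * (y - 1) :=
          mul_nonneg (mul_nonneg (by linarith) hy0) (by linarith)
        nlinarith
      · push_cast
        have h0 : 1 ≤ y := by omega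
        have h1 : 0 ≤ ((y : ℝ) - 1) * ((y : ℝ) - 2) := by
          rcases Nat.lt_or_ge y 2 with h | h
          · have : y = 1 := by omega
            subst this; norm_num
          · have h2 : (2 : ℝ) ≤ y := by exact_mod_cast h
            exact mul_nonneg (by linarith) (by linarith)
        have h2 : 0 ≤ ((y : ℝ) - 1) * ((y : ℝ) - 2) * (y + 10) := mul_nonneg h1 (by linarith)
        nlinarith)
  rw [cast_choose3, cast_choose3, Nat.cast_choose_two, Nat.cast_choose_two] at hmb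
  refine circ_of_lt (Tn_le _ (by omega)) (lt_of_lt_of_le ?_ hmb)
  obtain ⟨u, hu⟩ : ∃ u, P.card = Γ.card + 2 + u := ⟨P.card - (Γ.card + 2), by omega⟩
  obtain ⟨v, hv⟩ : ∃ v, Γ.card = u + v := ⟨Γ.card - u, by omega⟩
  have huv : 23 ≤ 2 * u + v := by omega
  have hnr : (P.card : ℝ) = 2 * u + v + 2 := by rw [hu, hv]; push_cast; ring
  have hKr : (Γ.card : ℝ) = u + v := by rw [hv]; push_cast; ring
  rw [hnr, hKr]
  have huvr : (23 : ℝ) ≤ 2 * u + v := by exact_mod_cast huv
  have hv0 : (0 : ℝ) ≤ v := Nat.cast_nonneg v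
  have hu0 : (0 : ℝ) ≤ u := Nat.cast_nonneg u
  have key : (0 : ℝ) < 8 * u ^ 3 + 21 * u ^ 2 * v + 12 * u * v ^ 2 - 84 * u ^ 2 - 53 * u * v
      + 6 * v ^ 2 - 48 * u - 46 * v + 52 := by
    rcases Nat.lt_or_ge u 12 with h | h
    · interval_cases u <;> push_cast at huvr ⊢ <;> nlinarith
    · obtain ⟨t, ht⟩ : ∃ t, u = 12 + t := ⟨u - 12, by omega⟩
      have htr : (u : ℝ) = 12 + t := by rw [ht]; push_cast; ring
      have ht0 : (0 : ℝ) ≤ t := Nat.cast_nonneg t
      rw [htr]
      have : 8 * (12 + (t : ℝ)) ^ 3 + 21 * (12 + (t : ℝ)) ^ 2 * v + 12 * (12 + (t : ℝ)) * v ^ 2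
        - 84 * (12 + (t : ℝ)) ^ 2 - 53 * (12 + (t : ℝ)) * v + 6 * v ^ 2 - 48 * (12 + (t : ℝ))
        - 46 * v + 52 = 1204 + 8 * t ^ 3 + (288 - 84) * t ^ 2 + (3456 - 2016 - 48) * t
          + 21 * t ^ 2 * v + (504 - 53) * t * v + (3024 - 636 - 46) * v + 12 * t * v ^ 2
          + 150 * v ^ 2 := by ring
      rw [this]
      positivity
  nlinarith

/-- all but one point on a generalized circle -/
lemma lower_last {P Γ : Finset Pt} (h4 : 4 ≤ P.card) (hΓ : Γ ∈ blocks P)
    (hcard : P.card = Γ.card + 1) : Tn P.card ≤ (circ P).card := by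
  have hΓP := block_subset hΓ
  have hq1 : (P \ Γ).card = 1 := by rw [card_sdiff_of_subset hΓP]; omega
  obtain ⟨q, hq⟩ := card_eq_one.mp hq1
  have hqP : q ∈ P ∧ q ∉ Γ := by
    rw [← mem_sdiff, hq]; exact mem_singleton_self q
  -- number of blocks
  have h1 : Γ.card.choose 2 ≤ ((blocks P).erase Γ).card := by
    have e1 := sum_choose21 hΓ
    rw [← add_sum_erase _ _ hΓ] at e1
    have e2 : (Γ \ Γ).card = 0 := by simp
    rw [e2, mul_zero, zero_add] at e1
    have e3 : P.card - Γ.card = 1 := by omega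
    rw [e3, mul_one] at e1
    rw [← e1, card_eq_sum_ones]
    refine sum_le_sum fun B hB => ?_
    rw [mem_erase] at hB
    have e4 : (B ∩ Γ).card ≤ 2 := inter_le hB.2 hΓ hB.1
    have e5 : (B ∩ Γ).card.choose 2 ≤ 1 := (Nat.choose_le_choose 2 e4).trans (by decide)
    have e6 : (B \ Γ).card ≤ 1 := by
      rw [← hq1]
      exact card_le_card (sdiff_subset_sdiff (block_subset hB.2) (Subset.refl _))
    calc (B ∩ Γ).card.choose 2 * (B \ Γ).card ≤ 1 * 1 := Nat.mul_le_mul e5 e6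
      _ = 1 := by norm_num
  rw [card_erase_of_mem hΓ] at h1
  have hbc : (blocks P).card = (circ P).card + (lines3 P).card := by
    have := blocks_split P (fun _ => 1)
    simp only [sum_const, nsmul_eq_mul, mul_one] at this
    exact_mod_cast this
  -- lines
  have hline : ∀ L ∈ (lines3 P).erase Γ, 2 ≤ (L ∩ Γ).card ∧ q ∈ L := by
    intro L hL
    rw [mem_erase, lines3, mem_filter] at hL
    have e1 := card_inter_add_card_sdiff L Γ
    have e2 : (L \ Γ).card ≤ 1 := by
      rw [← hq1]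
      exact card_le_card (sdiff_subset_sdiff (line_subset hL.2.1) (Subset.refl _))
    have e3 : (L ∩ Γ).card ≤ 2 := inter_le (line_mem_blocks hL.2.1 hL.2.2) hΓ hL.1
    refine ⟨by omega, ?_⟩
    have e4 : (L \ Γ).card = 1 := by omega
    obtain ⟨r, hr⟩ := card_eq_one.mp e4
    have e5 : r ∈ L \ Γ := by rw [hr]; exact mem_singleton_self r
    rw [mem_sdiff] at e5
    have e6 : r ∈ P \ Γ := mem_sdiff.mpr ⟨line_subset hL.2.1 e5.1, e5.2⟩
    rw [hq, mem_singleton] at e6
    rw [← e6]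
    exact e5.1
  unfold Tn
  have hT : P.card - 1 = Γ.card := by omega
  rw [hT]
  by_cases hl : Γ ∈ lines P
  · -- the block is a line
    have e1 : (lines3 P).erase Γ = ∅ := by
      rw [eq_empty_iff_forall_notMem]
      intro L hL
      obtain ⟨h2, _⟩ := hline L hL
      rw [mem_erase, lines3, mem_filter] at hL
      obtain ⟨x, y, hx, hy, hxy⟩ := one_lt_card_iff.mp (show 1 < (L ∩ Γ).card by omega)
      rw [mem_inter] at hx hy
      apply hL.1
      rw [eq_lineOf hL.2.1 hx.1 hy.1 hxy, ← eq_lineOf hl hx.2 hy.2 hxy]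
    have e2 : Γ ∈ lines3 P := by
      rw [lines3, mem_filter]
      exact ⟨hl, three_le_card hΓ⟩
    have e3 : ((lines3 P).erase Γ).card = 0 := by rw [e1]; rfl
    rw [card_erase_of_mem e2] at e3
    have e4 : 0 < (lines3 P).card := card_pos.mpr ⟨Γ, e2⟩
    have e5 : 3 ≤ Γ.card := three_le_card hΓ
    have : 1 ≤ Γ.card / 2 := by omega
    omega
  · have e2 : Γ ∉ lines3 P := by
      rw [lines3, mem_filter]
      exact fun h => hl h.1
    rw [erase_eq_of_notMem e2] at hline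
    have e3 : 2 * (lines3 P).card ≤ Γ.card := by
      have e4 : (lines3 P).card * 2 ≤ ∑ L ∈ lines3 P, (L ∩ Γ).card := by
        rw [← smul_eq_mul]
        exact card_nsmul_le_sum _ _ _ fun L hL => (hline L hL).1
      have e5 : ∑ L ∈ lines3 P, (L ∩ Γ).card = ((lines3 P).biUnion (fun L => L ∩ Γ)).card := by
        rw [card_biUnion]
        intro L hL L' hL' hne
        simp only [Function.onFun]
        rw [disjoint_left]
        intro x hx hx'
        rw [mem_inter] at hx hx'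
        have hxq : x ≠ q := by rintro rfl; exact hqP.2 hx.2
        apply hne
        have hL1 := mem_coe.mp hL
        have hL2 := mem_coe.mp hL'
        rw [eq_lineOf (mem_filter.mp hL1).1 hx.1 (hline L hL1).2 hxq,
          eq_lineOf (mem_filter.mp hL2).1 hx'.1 (hline L' hL2).2 hxq]
      have e6 : ((lines3 P).biUnion (fun L => L ∩ Γ)).card ≤ Γ.card := by
        apply card_le_card
        intro x hx
        rw [mem_biUnion] at hx
        obtain ⟨L, _, hx⟩ := hx
        exact (mem_inter.mp hx).2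
      omega
    omega

/-- the lower bound -/
theorem circ_lower {P : Finset Pt} (hn : 15 ≤ P.card) (hP : P ∉ blocks P) :
    Tn P.card ≤ (circ P).card := by
  have hne : (blocks P).Nonempty := by
    obtain ⟨x, y, z, hx, hy, hz, hxy, hxz, hyz⟩ := two_lt_card_iff.mp (show 2 < P.card by omega)
    exact ⟨_, gc_mem_blocks hx hy hz hxy hxz hyz⟩
  obtain ⟨Γ, hΓ, hmax⟩ := exists_max_image (blocks P) card hne
  have hΓP := block_subset hΓ
  have h3 := three_le_card hΓ
  have hlt : Γ.card < P.card := by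
    apply card_lt_card
    rw [ssubset_iff_subset_ne]
    refine ⟨hΓP, ?_⟩
    rintro rfl
    exact hP hΓ
  rcases Nat.lt_or_ge (Γ.card + 1) P.card with h | h
  · rcases Nat.lt_or_ge 24 P.card with h' | h'
    · rcases Nat.lt_or_ge P.card (2 * Γ.card + 3) with h'' | h''
      · exact lower3 (by omega) hP hΓ hmax (by omega) (by omega)
      · exact lower1 (by omega) hP hΓ hmax (by omega)
    · have hc := chk_small P.card (mem_Icc.mpr ⟨hn, h'⟩) Γ.card (mem_Icc.mpr ⟨h3, by omega⟩)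
      rw [Bool.or_eq_true, Bool.or_eq_true] at hc
      rcases hc with (hc | hc) | hc
      · exact chk_sound (by omega) hP hΓ hmax _ _ _ _ _ hc
      · exact chk_sound (by omega) hP hΓ hmax _ _ _ _ _ hc
      · exact chk_sound (by omega) hP hΓ hmax _ _ _ _ _ hc
  · exact lower_last (by omega) hΓ (by omega)

end

end Pool.Agent.K1H39.Circles
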