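import Pool.Agent.K1H39.Circles.Blocks

/-! Melchior's inequality at a point of `P` (inversion). -/

set_option autoImplicit false

namespace Pool.Agent.K1H39.Circles

open Finset
open Pool.Agent.Helper543.Melchior (Pt cr lineOf lines cr_self_left cr_self_right cr_swap
  exists_param cr_param mem_lineOf lineOf_eq lineOf_mem_lines eq_lineOf line_subset exists_two
  melchior)

noncomputable section

open scoped Classical

/-- image of a block through `p` under the inversion at `p` -/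
def φ (p : Pt) (B : Finset Pt) : Finset Pt := (B.erase p).image (inv p)

lemma mem_φ {p : Pt} {B : Finset Pt} {x : Pt} (hx : x ≠ p) : inv p x ∈ φ p B ↔ x ∈ B := by
  unfold φ
  rw [mem_image]
  constructor
  · rintro ⟨y, hy, hyx⟩
    rw [mem_erase] at hy
    rw [← inv_inj hy.1 hx hyx]
    exact hy.2
  · intro h
    exact ⟨x, mem_erase.mpr ⟨hx, h⟩, rfl⟩

lemma zero_notMem_φ (p : Pt) (B : Finset Pt) : (0 : Pt) ∉ φ p B := by
  unfold φ
  rw [mem_image]
  rintro ⟨y, hy, h⟩
  exact inv_ne_zero (mem_erase.mp hy).1 h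

lemma card_φ {p : Pt} {B : Finset Pt} (hp : p ∈ B) : (φ p B).card = B.card - 1 := by
  unfold φ
  rw [card_image_of_injOn, card_erase_of_mem hp]
  intro x hx y hy h
  exact inv_inj (mem_erase.mp (mem_coe.mp hx)).1 (mem_erase.mp (mem_coe.mp hy)).1 h

lemma φ_inj {p : Pt} {B B' : Finset Pt} (hp : p ∈ B) (hp' : p ∈ B') (h : φ p B = φ p B') :
    B = B' := by
  ext x
  by_cases hx : x = p
  · subst hx; simp [hp, hp']
  · rw [← mem_φ (B := B) hx, h, mem_φ hx]

lemma φ_gc {P : Finset Pt} {p a b : Pt} (ha : a ≠ p) (hb : b ≠ p) :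
    φ p (gc P p a b) = lineOf (φ p P) (inv p a) (inv p b) := by
  ext t
  rw [mem_lineOf]
  constructor
  · intro ht
    obtain ⟨x, hx, rfl⟩ := mem_image.mp ht
    rw [mem_erase, mem_gc] at hx
    refine ⟨(mem_φ hx.1).mpr hx.2.1, (cr_inv_iff ha hb hx.1).mpr hx.2.2⟩
  · rintro ⟨ht, h⟩
    obtain ⟨x, hx, rfl⟩ := mem_image.mp ht
    rw [mem_erase] at hx
    rw [mem_φ hx.1, mem_gc]
    exact ⟨hx.2, (cr_inv_iff ha hb hx.1).mp h⟩

/-- the lines of the inverted set correspond to the blocks through `p` -/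
lemma lines_φ {P : Finset Pt} {p : Pt} (hp : p ∈ P) :
    lines (φ p P) = ((blocks P).filter (fun B => p ∈ B)).image (φ p) := by
  ext M
  rw [mem_image]
  constructor
  · intro hM
    obtain ⟨u, hu, v, hv, huv⟩ := exists_two hM
    have h1 := eq_lineOf hM hu hv huv
    obtain ⟨a, ha, rfl⟩ := mem_image.mp (line_subset hM hu)
    obtain ⟨b, hb, rfl⟩ := mem_image.mp (line_subset hM hv)
    rw [mem_erase] at ha hb
    have hab : a ≠ b := fun h => huv (by rw [h])
    refine ⟨gc P p a b, ?_, ?_⟩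
    · rw [mem_filter]
      exact ⟨gc_mem_blocks hp ha.2 hb.2 ha.1.symm hb.1.symm hab, mem_gc1 hp⟩
    · rw [φ_gc ha.1 hb.1, h1]
  · rintro ⟨B, hB, rfl⟩
    rw [mem_filter] at hB
    have h3 := three_le_card hB.1
    obtain ⟨a, b, ha, hb, hab⟩ := one_lt_card_iff.mp
      (show 1 < (B.erase p).card by rw [card_erase_of_mem hB.2]; omega)
    rw [mem_erase] at ha hb
    have h1 := block_eq hB.1 hB.2 ha.2 hb.2 ha.1.symm hb.1.symm hab
    rw [h1, φ_gc ha.1 hb.1]
    apply lineOf_mem_lines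
    · exact (mem_φ ha.1).mpr (block_subset hB.1 ha.2)
    · exact (mem_φ hb.1).mpr (block_subset hB.1 hb.2)
    · exact fun h => hab (inv_inj ha.1 hb.1 h)

lemma exists_noncol {P : Finset Pt} (h4 : 4 ≤ P.card) (hP : P ∉ blocks P) {p : Pt} (hp : p ∈ P) :
    ∃ a ∈ φ p P, ∃ b ∈ φ p P, ∃ c ∈ φ p P, cr a b c ≠ 0 := by
  obtain ⟨a, b, ha, hb, hab⟩ := one_lt_card_iff.mp
    (show 1 < (P.erase p).card by rw [card_erase_of_mem hp]; omega)
  rw [mem_erase] at ha hb
  have hB := gc_mem_blocks hp ha.2 hb.2 ha.1.symm hb.1.symm hab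
  have hne : gc P p a b ≠ P := by
    intro h
    apply hP
    have key : ∀ X : Finset Pt, X ∈ blocks P → X = P → P ∈ blocks P := by
      rintro X hX rfl
      exact hX
    exact key _ hB h
  have hex : ∃ c ∈ P, c ∉ gc P p a b := by
    by_contra hcon
    push Not at hcon
    exact hne (Subset.antisymm (filter_subset _ _) hcon)
  obtain ⟨c, hc, hcB⟩ := hex
  have hcp : c ≠ p := by
    rintro rfl
    exact hcB (mem_gc1 hc)
  have hD : D p a b c ≠ 0 := fun h => hcB (mem_gc.mpr ⟨hc, h⟩)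
  exact ⟨inv p a, (mem_φ ha.1).mpr ha.2, inv p b, (mem_φ hb.1).mpr hb.2, inv p c,
    (mem_φ hcp).mpr hc, fun h => hD ((cr_inv_iff ha.1 hb.1 hcp).mp h)⟩

/-- first consequence of Melchior's inequality -/
lemma mel2 {P : Finset Pt} (h4 : 4 ≤ P.card) (hP : P ∉ blocks P) {p : Pt} (hp : p ∈ P) :
    (3 : ℤ) ≤ ∑ B ∈ (blocks P).filter (fun B => p ∈ B), (4 - (B.card : ℤ)) := by
  have hm := melchior (exists_noncol h4 hP hp)
  rw [lines_φ hp] at hm
  have hinj : Set.InjOn (φ p) ((blocks P).filter (fun B => p ∈ B)) := by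
    intro B hB B' hB' h
    exact φ_inj (mem_filter.mp (mem_coe.mp hB)).2 (mem_filter.mp (mem_coe.mp hB')).2 h
  rw [sum_image hinj, card_image_of_injOn hinj] at hm
  have h1 : ∑ B ∈ (blocks P).filter (fun B => p ∈ B), (φ p B).card
      = ∑ B ∈ (blocks P).filter (fun B => p ∈ B), (B.card - 1) :=
    sum_congr rfl fun B hB => card_φ (mem_filter.mp hB).2
  rw [h1] at hm
  have h2 : ((∑ B ∈ (blocks P).filter (fun B => p ∈ B), (B.card - 1) : ℕ) : ℤ)
      = ∑ B ∈ (blocks P).filter (fun B => p ∈ B), ((B.card : ℤ) - 1) := by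
    rw [Nat.cast_sum]
    refine sum_congr rfl fun B hB => ?_
    have := three_le_card (mem_filter.mp hB).1
    rw [Nat.cast_sub (by omega)]
    simp
  have hm' : ((∑ B ∈ (blocks P).filter (fun B => p ∈ B), (B.card - 1) : ℕ) : ℤ) + 3
      ≤ 3 * (((blocks P).filter (fun B => p ∈ B)).card : ℤ) := by exact_mod_cast hm
  rw [h2] at hm'
  have h3 : ∑ B ∈ (blocks P).filter (fun B => p ∈ B), (4 - (B.card : ℤ))
      = 3 * (((blocks P).filter (fun B => p ∈ B)).card : ℤ)
        - ∑ B ∈ (blocks P).filter (fun B => p ∈ B), ((B.card : ℤ) - 1) := by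
    rw [card_eq_sum_ones, Nat.cast_sum, mul_sum, ← sum_sub_distrib]
    refine sum_congr rfl fun B _ => ?_
    push_cast
    ring
  rw [h3]
  linarith

/-- image of a line through `p`, together with the point `0` -/
def ψ (p : Pt) (L : Finset Pt) : Finset Pt := insert 0 (φ p L)

lemma card_ψ {p : Pt} {L : Finset Pt} (hp : p ∈ L) : (ψ p L).card = L.card := by
  unfold ψ
  rw [card_insert_of_notMem (zero_notMem_φ _ _), card_φ hp]
  have : 0 < L.card := card_pos.mpr ⟨p, hp⟩
  omega

lemma ψ_inj {p : Pt} {L L' : Finset Pt} (hp : p ∈ L) (hp' : p ∈ L') (h : ψ p L = ψ p L') :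
    L = L' := by
  apply φ_inj hp hp'
  have h1 : (ψ p L).erase 0 = (ψ p L').erase 0 := by rw [h]
  unfold ψ at h1
  rwa [erase_insert (zero_notMem_φ _ _), erase_insert (zero_notMem_φ _ _)] at h1

lemma cr_zero_iff {p x t : Pt} (hx : x ≠ p) (ht : t ≠ p) :
    cr 0 (inv p x) (inv p t) = 0 ↔ cr p x t = 0 := by
  rw [← cr_inv_zero_iff hx ht]
  have : cr 0 (inv p x) (inv p t) = cr (inv p x) (inv p t) 0 := by simp only [cr]; ring
  rw [this]

lemma ψ_line {P : Finset Pt} {p x : Pt} (hp : p ∈ P) (hx : x ≠ p) :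
    ψ p (lineOf P p x) = lineOf (insert 0 (φ p P)) 0 (inv p x) := by
  ext t
  unfold ψ
  rw [mem_insert, mem_lineOf, mem_insert]
  constructor
  · rintro (rfl | ht)
    · exact ⟨Or.inl rfl, cr_self_left _ _⟩
    · obtain ⟨y, hy, rfl⟩ := mem_image.mp ht
      rw [mem_erase, mem_lineOf] at hy
      exact ⟨Or.inr ((mem_φ hy.1).mpr hy.2.1), (cr_zero_iff hx hy.1).mpr hy.2.2⟩
  · rintro ⟨rfl | ht, h⟩
    · exact Or.inl rfl
    · obtain ⟨y, hy, rfl⟩ := mem_image.mp ht
      rw [mem_erase] at hy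
      right
      rw [mem_φ hy.1, mem_lineOf]
      exact ⟨hy.2, (cr_zero_iff hx hy.1).mp h⟩

/-- the lines of the inverted set with the additional point `0` -/
lemma lines_ψ {P : Finset Pt} {p : Pt} (hp : p ∈ P) :
    lines (insert 0 (φ p P)) = ((circ P).filter (fun B => p ∈ B)).image (φ p) ∪
      ((lines P).filter (fun L => p ∈ L)).image (ψ p) := by
  ext M
  rw [mem_union, mem_image, mem_image]
  constructor
  · intro hM
    by_cases h0 : (0 : Pt) ∈ M
    · right
      have hex : ∃ v ∈ M, v ≠ 0 := by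
        obtain ⟨u, hu, v, hv, huv⟩ := exists_two hM
        by_cases hu0 : u = 0
        · exact ⟨v, hv, fun h => huv (by rw [hu0, h])⟩
        · exact ⟨u, hu, hu0⟩
      obtain ⟨v, hv, hv0⟩ := hex
      have h1 := eq_lineOf hM h0 hv hv0.symm
      have hv' := line_subset hM hv
      rw [mem_insert] at hv'
      rcases hv' with hv' | hv'
      · exact absurd hv' hv0
      obtain ⟨x, hx, rfl⟩ := mem_image.mp hv'
      rw [mem_erase] at hx
      refine ⟨lineOf P p x, ?_, ?_⟩
      · rw [mem_filter]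
        exact ⟨lineOf_mem_lines hp hx.2 hx.1.symm, mem_lineOf.mpr ⟨hp, cr_self_left _ _⟩⟩
      · rw [ψ_line hp hx.1, h1]
    · left
      obtain ⟨u, hu, v, hv, huv⟩ := exists_two hM
      have h1 := eq_lineOf hM hu hv huv
      have hu' := line_subset hM hu
      have hv' := line_subset hM hv
      rw [mem_insert] at hu' hv'
      rcases hu' with rfl | hu'
      · exact absurd hu h0
      rcases hv' with rfl | hv'
      · exact absurd hv h0
      obtain ⟨a, ha, rfl⟩ := mem_image.mp hu'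
      obtain ⟨b, hb, rfl⟩ := mem_image.mp hv'
      rw [mem_erase] at ha hb
      have hab : a ≠ b := fun h => huv (by rw [h])
      refine ⟨gc P p a b, ?_, ?_⟩
      · rw [mem_filter, mem_circ]
        refine ⟨⟨gc_mem_blocks hp ha.2 hb.2 ha.1.symm hb.1.symm hab, ?_⟩, mem_gc1 hp⟩
        intro hL
        apply h0
        have h2 := eq_lineOf hL (mem_gc1 hp) (mem_gc2 ha.2) ha.1.symm
        have h3 : b ∈ lineOf P p a := by rw [← h2]; exact mem_gc3 hb.2
        rw [h1, mem_lineOf]
        exact ⟨mem_insert_self _ _, (cr_inv_zero_iff ha.1 hb.1).mpr (mem_lineOf.mp h3).2⟩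
      · rw [φ_gc ha.1 hb.1, h1]
        ext t
        rw [mem_lineOf, mem_lineOf, mem_insert]
        constructor
        · rintro ⟨ht, h⟩; exact ⟨Or.inr ht, h⟩
        · rintro ⟨ht | ht, h⟩
          · exfalso
            apply h0
            rw [h1, mem_lineOf]
            exact ⟨mem_insert_self _ _, ht ▸ h⟩
          · exact ⟨ht, h⟩
  · rintro (⟨B, hB, rfl⟩ | ⟨L, hL, rfl⟩)
    · rw [mem_filter, mem_circ] at hB
      obtain ⟨⟨hB, hBL⟩, hpB⟩ := hB
      have h3 := three_le_card hB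
      obtain ⟨a, b, ha, hb, hab⟩ := one_lt_card_iff.mp
        (show 1 < (B.erase p).card by rw [card_erase_of_mem hpB]; omega)
      rw [mem_erase] at ha hb
      have h1 := block_eq hB hpB ha.2 hb.2 ha.1.symm hb.1.symm hab
      have haP := block_subset hB ha.2
      have hbP := block_subset hB hb.2
      have hcr : cr p a b ≠ 0 := by
        intro h
        apply hBL
        rw [h1, gc_of_collinear ha.1.symm hb.1.symm hab h]
        exact lineOf_mem_lines hp haP ha.1.symm
      have h2 : φ p B = lineOf (insert 0 (φ p P)) (inv p a) (inv p b) := by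
        rw [h1, φ_gc ha.1 hb.1]
        ext t
        rw [mem_lineOf, mem_lineOf, mem_insert]
        constructor
        · rintro ⟨ht, h⟩; exact ⟨Or.inr ht, h⟩
        · rintro ⟨ht | ht, h⟩
          · exfalso
            rw [ht] at h
            exact hcr ((cr_inv_zero_iff ha.1 hb.1).mp h)
          · exact ⟨ht, h⟩
      rw [h2]
      apply lineOf_mem_lines
      · exact mem_insert_of_mem ((mem_φ ha.1).mpr haP)
      · exact mem_insert_of_mem ((mem_φ hb.1).mpr hbP)
      · exact fun h => hab (inv_inj ha.1 hb.1 h)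
    · rw [mem_filter] at hL
      obtain ⟨hL, hpL⟩ := hL
      obtain ⟨x, hx, hxp⟩ : ∃ x ∈ L, x ≠ p := by
        obtain ⟨u, hu, v, hv, huv⟩ := exists_two hL
        by_cases hu0 : u = p
        · exact ⟨v, hv, fun h => huv (by rw [hu0, h])⟩
        · exact ⟨u, hu, hu0⟩
      have h1 := eq_lineOf hL hpL hx hxp.symm
      rw [h1, ψ_line hp hxp]
      apply lineOf_mem_lines
      · exact mem_insert_self _ _
      · exact mem_insert_of_mem ((mem_φ hxp).mpr (line_subset hL hx))
      · exact (inv_ne_zero hxp).symm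

/-- second consequence of Melchior's inequality -/
lemma mel3 {P : Finset Pt} (h4 : 4 ≤ P.card) (hP : P ∉ blocks P) {p : Pt} (hp : p ∈ P) :
    (3 : ℤ) ≤ ∑ B ∈ (circ P).filter (fun B => p ∈ B), (4 - (B.card : ℤ))
      + ∑ L ∈ (lines P).filter (fun L => p ∈ L), (3 - (L.card : ℤ)) := by
  have hex : ∃ a ∈ insert 0 (φ p P), ∃ b ∈ insert 0 (φ p P), ∃ c ∈ insert 0 (φ p P),
      cr a b c ≠ 0 := by
    obtain ⟨a, ha, b, hb, c, hc, h⟩ := exists_noncol h4 hP hp
    exact ⟨a, mem_insert_of_mem ha, b, mem_insert_of_mem hb, c, mem_insert_of_mem hc, h⟩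
  have hm := melchior hex
  rw [lines_ψ hp] at hm
  have hinj1 : Set.InjOn (φ p) ((circ P).filter (fun B => p ∈ B)) := by
    intro B hB B' hB' h
    exact φ_inj (mem_filter.mp (mem_coe.mp hB)).2 (mem_filter.mp (mem_coe.mp hB')).2 h
  have hinj2 : Set.InjOn (ψ p) ((lines P).filter (fun L => p ∈ L)) := by
    intro B hB B' hB' h
    exact ψ_inj (mem_filter.mp (mem_coe.mp hB)).2 (mem_filter.mp (mem_coe.mp hB')).2 h
  have hdisj : Disjoint (((circ P).filter (fun B => p ∈ B)).image (φ p))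
      (((lines P).filter (fun L => p ∈ L)).image (ψ p)) := by
    rw [disjoint_left]
    intro M h1 h2
    obtain ⟨B, _, rfl⟩ := mem_image.mp h1
    obtain ⟨L, _, hL⟩ := mem_image.mp h2
    apply zero_notMem_φ p B
    rw [← hL]
    exact mem_insert_self _ _
  rw [sum_union hdisj, card_union_of_disjoint hdisj, sum_image hinj1, sum_image hinj2,
    card_image_of_injOn hinj1, card_image_of_injOn hinj2] at hm
  have h1 : ∑ B ∈ (circ P).filter (fun B => p ∈ B), (φ p B).card
      = ∑ B ∈ (circ P).filter (fun B => p ∈ B), (B.card - 1) :=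
    sum_congr rfl fun B hB => card_φ (mem_filter.mp hB).2
  have h1' : ∑ L ∈ (lines P).filter (fun L => p ∈ L), (ψ p L).card
      = ∑ L ∈ (lines P).filter (fun L => p ∈ L), L.card :=
    sum_congr rfl fun B hB => card_ψ (mem_filter.mp hB).2
  rw [h1, h1'] at hm
  have h2 : ((∑ B ∈ (circ P).filter (fun B => p ∈ B), (B.card - 1) : ℕ) : ℤ)
      = ∑ B ∈ (circ P).filter (fun B => p ∈ B), ((B.card : ℤ) - 1) := by
    rw [Nat.cast_sum]
    refine sum_congr rfl fun B hB => ?_
    have := three_le_card (mem_circ.mp (mem_filter.mp hB).1).1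
    rw [Nat.cast_sub (by omega)]
    simp
  have hm' : ((∑ B ∈ (circ P).filter (fun B => p ∈ B), (B.card - 1) : ℕ) : ℤ)
      + ((∑ L ∈ (lines P).filter (fun L => p ∈ L), L.card : ℕ) : ℤ) + 3
      ≤ 3 * ((((circ P).filter (fun B => p ∈ B)).card : ℤ)
        + (((lines P).filter (fun L => p ∈ L)).card : ℤ)) := by exact_mod_cast hm
  rw [h2, Nat.cast_sum] at hm'
  have h3 : ∑ B ∈ (circ P).filter (fun B => p ∈ B), (4 - (B.card : ℤ))
      = 3 * (((circ P).filter (fun B => p ∈ B)).card : ℤ)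
        - ∑ B ∈ (circ P).filter (fun B => p ∈ B), ((B.card : ℤ) - 1) := by
    rw [card_eq_sum_ones, Nat.cast_sum, mul_sum, ← sum_sub_distrib]
    refine sum_congr rfl fun B _ => ?_
    push_cast
    ring
  have h5 : ∑ L ∈ (lines P).filter (fun L => p ∈ L), (3 - (L.card : ℤ))
      = 3 * (((lines P).filter (fun L => p ∈ L)).card : ℤ)
        - ∑ L ∈ (lines P).filter (fun L => p ∈ L), (L.card : ℤ) := by
    rw [card_eq_sum_ones, Nat.cast_sum, mul_sum, ← sum_sub_distrib]
    refine sum_congr rfl fun B _ => ?_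
    push_cast
    ring
  rw [h3, h5]
  linarith

end

end Pool.Agent.K1H39.Circles
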