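import Pool.Agent.K1H39.Circles.Lower

/-! Circles in the Euclidean plane and the combinatorial model. -/

set_option autoImplicit false

namespace Pool.Agent.K1H39.Circles

open Finset
open Pool.Agent.Helper543.Melchior (Pt cr lineOf lines cr_self_left cr_self_right cr_swap
  exists_param cr_param mem_lineOf lineOf_eq lineOf_mem_lines eq_lineOf line_subset exists_two
  melchior)

noncomputable section

open scoped Classical

/-- the Euclidean plane -/
abbrev Pl := EuclideanSpace ℝ (Fin 2)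

def toPt (x : Pl) : Pt := (x 0, x 1)

lemma toPt_inj : Function.Injective toPt := by
  intro x y h
  have h1 : x 0 = y 0 := congrArg Prod.fst h
  have h2 : x 1 = y 1 := congrArg Prod.snd h
  ext i
  fin_cases i
  · exact h1
  · exact h2

def ofPt (x : Pt) : Pl := !₂[x.1, x.2]

lemma toPt_ofPt (x : Pt) : toPt (ofPt x) = x := by
  simp [toPt, ofPt]

lemma dist_sq (x o : Pl) : dist x o ^ 2 = nq (toPt o) (toPt x) := by
  rw [EuclideanSpace.dist_eq, Real.sq_sqrt (by positivity), Fin.sum_univ_two]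
  simp only [nq, toPt, Real.dist_eq, sq_abs]

/-- three distinct points of a circle are not collinear -/
lemma not_col {o a b c : Pt} {ρ : ℝ} (hab : a ≠ b) (hac : a ≠ c) (hbc : b ≠ c)
    (h1 : nq o a = ρ) (h2 : nq o b = ρ) (h3 : nq o c = ρ) : cr a b c ≠ 0 := by
  intro h
  obtain ⟨s, hs1, hs2⟩ := exists_param hab h
  have hs0 : s ≠ 0 := by
    rintro rfl
    apply hac
    ext <;> linarith
  have hs1' : s - 1 ≠ 0 := by
    intro h0
    have : s = 1 := by linarith
    subst this
    apply hbc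
    ext <;> linarith
  have hn := (nq_pos hab.symm).ne'
  have hc1 : c.1 = a.1 + s * (b.1 - a.1) := by linarith
  have hc2 : c.2 = a.2 + s * (b.2 - a.2) := by linarith
  have key : s * (s - 1) * nq a b = 0 := by
    simp only [nq] at h1 h2 h3 ⊢
    rw [hc1, hc2] at h3
    linear_combination h3 - s * h2 - (1 - s) * h1
  exact mul_ne_zero (mul_ne_zero hs0 hs1') hn key

/-- the circle through three noncollinear points -/
lemma exists_circle {a b c : Pt} (h : cr a b c ≠ 0) :
    ∃ o : Pt, nq o b = nq o a ∧ nq o c = nq o a := by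
  refine ⟨(a.1 + (nq a b * (c.2 - a.2) - nq a c * (b.2 - a.2)) / (2 * cr a b c),
    a.2 + (nq a c * (b.1 - a.1) - nq a b * (c.1 - a.1)) / (2 * cr a b c)), ?_, ?_⟩
  · simp only [nq, cr] at h ⊢
    field_simp
    ring
  · simp only [nq, cr] at h ⊢
    field_simp
    ring

lemma circle_unique {a b c o o' : Pt} (h : cr a b c ≠ 0) (h1 : nq o b = nq o a)
    (h2 : nq o c = nq o a) (h1' : nq o' b = nq o' a) (h2' : nq o' c = nq o' a) : o = o' := by
  have e1 : (o.1 - o'.1) * (b.1 - a.1) + (o.2 - o'.2) * (b.2 - a.2) = 0 := by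
    simp only [nq] at h1 h1'
    linear_combination (h1' - h1) / 2
  have e2 : (o.1 - o'.1) * (c.1 - a.1) + (o.2 - o'.2) * (c.2 - a.2) = 0 := by
    simp only [nq] at h2 h2'
    linear_combination (h2' - h2) / 2
  have f1 : (o.1 - o'.1) * cr a b c = 0 := by
    simp only [cr]
    linear_combination (c.2 - a.2) * e1 - (b.2 - a.2) * e2
  have f2 : (o.2 - o'.2) * cr a b c = 0 := by
    simp only [cr]
    linear_combination (b.1 - a.1) * e2 - (c.1 - a.1) * e1
  have g1 : o.1 - o'.1 = 0 := (mul_eq_zero.mp f1).resolve_right h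
  have g2 : o.2 - o'.2 = 0 := (mul_eq_zero.mp f2).resolve_right h
  ext <;> linarith

lemma D_circle {a b c o x : Pt} {ρ : ℝ} (h1 : nq o a = ρ) (h2 : nq o b = ρ) (h3 : nq o c = ρ) :
    D a b c x = (nq o x - ρ) * cr a b c := by
  have key : D a b c x = (nq o x - ρ) * cr a b c - (nq o c - ρ) * cr a b x
      + (nq o b - ρ) * cr a c x - (nq o a - ρ) * cr b c x := by
    simp only [D, nq, cr]
    ring
  rw [key, h1, h2, h3]
  ring

/-- points of `P` on a circle given by three of them -/
lemma circle_inter {P : Finset Pt} {a b c o : Pt} {ρ : ℝ} (hab : a ≠ b) (hac : a ≠ c)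
    (hbc : b ≠ c) (h1 : nq o a = ρ) (h2 : nq o b = ρ) (h3 : nq o c = ρ) :
    P.filter (fun x => nq o x = ρ) = gc P a b c := by
  ext x
  rw [mem_filter, mem_gc, D_circle h1 h2 h3]
  have hcr := not_col hab hac hbc h1 h2 h3
  constructor
  · rintro ⟨hx, h⟩
    exact ⟨hx, by rw [h]; ring⟩
  · rintro ⟨hx, h⟩
    refine ⟨hx, ?_⟩
    have := (mul_eq_zero.mp h).resolve_right hcr
    linarith

lemma circ_of_circle {P : Finset Pt} {o : Pt} {ρ : ℝ}
    (h3 : 3 ≤ (P.filter (fun x => nq o x = ρ)).card) :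
    P.filter (fun x => nq o x = ρ) ∈ circ P := by
  obtain ⟨a, b, c, ha, hb, hc, hab, hac, hbc⟩ := two_lt_card_iff.mp h3
  rw [mem_filter] at ha hb hc
  have hcr := not_col hab hac hbc ha.2 hb.2 hc.2
  rw [circle_inter hab hac hbc ha.2 hb.2 hc.2, mem_circ]
  refine ⟨gc_mem_blocks ha.1 hb.1 hc.1 hab hac hbc, ?_⟩
  intro hL
  have h1 := eq_lineOf hL (mem_gc1 ha.1) (mem_gc2 hb.1) hab
  have h2 : c ∈ lineOf P a b := by rw [← h1]; exact mem_gc3 hc.1
  exact hcr (mem_lineOf.mp h2).2

lemma noncol_of_circ {P B : Finset Pt} (hB : B ∈ circ P) {a b c : Pt} (ha : a ∈ B) (hb : b ∈ B)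
    (hc : c ∈ B) (hab : a ≠ b) (hac : a ≠ c) (hbc : b ≠ c) : cr a b c ≠ 0 := by
  intro h
  rw [mem_circ] at hB
  apply hB.2
  rw [block_eq hB.1 ha hb hc hab hac hbc, gc_of_collinear hab hac hbc h]
  exact lineOf_mem_lines (block_subset hB.1 ha) (block_subset hB.1 hb) hab

/-- the number of circles determined by `P` -/
def numCircles (P : Finset Pl) : ℕ :=
  {S : EuclideanGeometry.Sphere Pl | 3 ≤ ((P : Set Pl) ∩ (S : Set Pl)).ncard}.ncard

/-- not on one line, not on one circle -/
def Admissible (P : Finset Pl) : Prop :=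
  ¬ Collinear ℝ (P : Set Pl) ∧ ¬ EuclideanGeometry.Cospherical (P : Set Pl)

lemma mem_sphere_iff {S : EuclideanGeometry.Sphere Pl} (hr : 0 ≤ S.radius) (x : Pl) :
    x ∈ S ↔ nq (toPt S.center) (toPt x) = S.radius ^ 2 := by
  rw [EuclideanGeometry.mem_sphere, ← dist_sq]
  constructor
  · intro h; rw [h]
  · intro h
    exact (pow_left_inj₀ dist_nonneg hr (by norm_num)).mp h

def F (P : Finset Pl) (S : EuclideanGeometry.Sphere Pl) : Finset Pt :=
  (P.filter (fun x => x ∈ S)).image toPt

lemma F_eq {P : Finset Pl} {S : EuclideanGeometry.Sphere Pl} (hr : 0 ≤ S.radius) :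
    F P S = (P.image toPt).filter (fun x => nq (toPt S.center) x = S.radius ^ 2) := by
  ext t
  unfold F
  simp only [mem_image, mem_filter]
  constructor
  · rintro ⟨x, ⟨hx, hxS⟩, rfl⟩
    exact ⟨⟨x, hx, rfl⟩, (mem_sphere_iff hr x).mp hxS⟩
  · rintro ⟨⟨x, hx, rfl⟩, h⟩
    exact ⟨x, ⟨hx, (mem_sphere_iff hr x).mpr h⟩, rfl⟩

lemma F_card {P : Finset Pl} {S : EuclideanGeometry.Sphere Pl} :
    ((P : Set Pl) ∩ (S : Set Pl)).ncard = (F P S).card := by
  unfold F
  rw [card_image_of_injective _ toPt_inj, ← Set.ncard_coe_finset]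
  congr 1
  ext x
  rw [mem_coe, mem_filter]
  exact Iff.rfl

theorem numCircles_eq' (P : Finset Pl) :
    {S : EuclideanGeometry.Sphere Pl | 3 ≤ ((P : Set Pl) ∩ (S : Set Pl)).ncard}.Finite ∧
    numCircles P = (circ (P.image toPt)).card := by
  unfold numCircles
  set A := {S : EuclideanGeometry.Sphere Pl | 3 ≤ ((P : Set Pl) ∩ (S : Set Pl)).ncard} with hA
  have hA' : ∀ S ∈ A, 3 ≤ (F P S).card := by
    intro S hS
    rw [hA, Set.mem_setOf_eq, F_card] at hS
    exact hS
  have hr : ∀ S ∈ A, 0 ≤ S.radius := by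
    intro S hS
    have h3 := hA' S hS
    have : 0 < (F P S).card := by omega
    obtain ⟨t, ht⟩ := card_pos.mp this
    unfold F at ht
    obtain ⟨x, hx, _⟩ := mem_image.mp ht
    rw [mem_filter, EuclideanGeometry.mem_sphere] at hx
    rw [← hx.2]
    exact dist_nonneg
  have hinj : Set.InjOn (F P) A := by
    intro S hS S' hS' h
    have h3 := hA' S hS
    obtain ⟨a, b, c, ha, hb, hc, hab, hac, hbc⟩ := two_lt_card_iff.mp h3
    have ha' := h ▸ ha
    have hb' := h ▸ hb
    have hc' := h ▸ hc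
    rw [F_eq (hr S hS), mem_filter] at ha hb hc
    rw [F_eq (hr S' hS'), mem_filter] at ha' hb' hc'
    have hcr := not_col hab hac hbc ha.2 hb.2 hc.2
    have ho := circle_unique hcr (hb.2.trans ha.2.symm) (hc.2.trans ha.2.symm)
      (hb'.2.trans ha'.2.symm) (hc'.2.trans ha'.2.symm)
    have h1 := toPt_inj ho
    have h2 : S.radius ^ 2 = S'.radius ^ 2 := by rw [← ha.2, ← ha'.2, ho]
    have h4 := (pow_left_inj₀ (hr S hS) (hr S' hS') (by norm_num)).mp h2
    exact EuclideanGeometry.Sphere.ext h1 h4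
  have himg : F P '' A = (circ (P.image toPt) : Set (Finset Pt)) := by
    ext B
    rw [Set.mem_image, mem_coe]
    constructor
    · rintro ⟨S, hS, rfl⟩
      have h3 := hA' S hS
      rw [F_eq (hr S hS)] at h3 ⊢
      exact circ_of_circle h3
    · intro hB
      have h3 := three_le_card (mem_circ.mp hB).1
      obtain ⟨a, b, c, ha, hb, hc, hab, hac, hbc⟩ := two_lt_card_iff.mp h3
      have hcr := noncol_of_circ hB ha hb hc hab hac hbc
      obtain ⟨o, ho1, ho2⟩ := exists_circle hcr
      set S : EuclideanGeometry.Sphere Pl := ⟨ofPt o, Real.sqrt (nq o a)⟩ with hSdef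
      have hrS : 0 ≤ S.radius := Real.sqrt_nonneg _
      have hn0 : 0 ≤ nq o a := by unfold nq; positivity
      have hFS : F P S = B := by
        rw [F_eq hrS]
        have e1 : toPt S.center = o := toPt_ofPt o
        have e2 : S.radius ^ 2 = nq o a := Real.sq_sqrt hn0
        rw [e1, e2, circle_inter hab hac hbc rfl ho1 ho2]
        exact (block_eq (mem_circ.mp hB).1 ha hb hc hab hac hbc).symm
      refine ⟨S, ?_, hFS⟩
      rw [hA, Set.mem_setOf_eq, F_card, hFS]
      exact h3
  refine ⟨?_, ?_⟩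
  · apply Set.Finite.of_finite_image _ hinj
    rw [himg]
    exact Finset.finite_toSet _
  · rw [← Set.ncard_image_of_injOn hinj, himg, Set.ncard_coe_finset]

theorem numCircles_eq (P : Finset Pl) : numCircles P = (circ (P.image toPt)).card :=
  (numCircles_eq' P).2

lemma not_block_of_admissible {P : Finset Pl} (hP : Admissible P) :
    P.image toPt ∉ blocks (P.image toPt) := by
  intro hB
  obtain ⟨a, ha, b, hb, c, hc, hab, hac, hbc, h⟩ := mem_blocks.mp hB
  obtain ⟨a', ha', rfl⟩ := mem_image.mp ha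
  obtain ⟨b', hb', rfl⟩ := mem_image.mp hb
  obtain ⟨c', hc', rfl⟩ := mem_image.mp hc
  by_cases hcr : cr (toPt a') (toPt b') (toPt c') = 0
  · apply hP.1
    rw [gc_of_collinear hab hac hbc hcr] at h
    rw [collinear_iff_of_mem (p₀ := a') (mem_coe.mpr ha')]
    refine ⟨b' - a', ?_⟩
    intro x hx
    have hx' : toPt x ∈ lineOf (P.image toPt) (toPt a') (toPt b') := by
      rw [← h]
      exact mem_image_of_mem _ (mem_coe.mp hx)
    obtain ⟨s, hs1, hs2⟩ := exists_param hab (mem_lineOf.mp hx').2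
    refine ⟨s, ?_⟩
    apply toPt_inj
    have e1 : x 0 - a' 0 = s * (b' 0 - a' 0) := hs1
    have e2 : x 1 - a' 1 = s * (b' 1 - a' 1) := hs2
    unfold toPt
    ext
    · simp only [vadd_eq_add, PiLp.add_apply, PiLp.smul_apply, PiLp.sub_apply, smul_eq_mul]
      linarith
    · simp only [vadd_eq_add, PiLp.add_apply, PiLp.smul_apply, PiLp.sub_apply, smul_eq_mul]
      linarith
  · apply hP.2
    obtain ⟨o, ho1, ho2⟩ := exists_circle hcr
    refine ⟨ofPt o, Real.sqrt (nq o (toPt a')), ?_⟩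
    intro x hx
    have hn0 : 0 ≤ nq o (toPt a') := by unfold nq; positivity
    have hx' : toPt x ∈ gc (P.image toPt) (toPt a') (toPt b') (toPt c') := by
      rw [← h]
      exact mem_image_of_mem _ (mem_coe.mp hx)
    have hD := (mem_gc.mp hx').2
    rw [D_circle rfl ho1 ho2] at hD
    have h1 := (mul_eq_zero.mp hD).resolve_right hcr
    have h2 : dist x (ofPt o) ^ 2 = nq o (toPt a') := by
      rw [dist_sq, toPt_ofPt]
      linarith
    rw [← h2, Real.sqrt_sq dist_nonneg]

theorem lower_bound {P : Finset Pl} (hn : 15 ≤ P.card) (hP : Admissible P) :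
    Tn P.card ≤ numCircles P := by
  rw [numCircles_eq]
  have h1 : (P.image toPt).card = P.card := card_image_of_injective _ toPt_inj
  rw [← h1]
  exact circ_lower (by omega) (not_block_of_admissible hP)

end

end Pool.Agent.K1H39.Circles
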